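import Mathlib
import Pool.Graph.R_pool_sql_team_seeded_9f66d723.W5h75.SP.Main

/-!
Additive functions with values in a finite abelian group at rough numbers: close rough numbers whose
values differ by an element outside a given subgroup, and families of close rough numbers whose values
exhaust the group.
-/

set_option autoImplicit false

open Finset

namespace Pool.Agent.H72.CG

open Pool.Agent.H661R3.OP (Rough)
open Pool.Agent.W5h75.SP (SVK ex_one rough_mul rough_prime rough_ne_zero)

/-- completely additive with values in a group -/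
def AddG {G : Type} [AddCommGroup G] (F : ℤ → G) : Prop :=
  ∀ x y : ℤ, x ≠ 0 → y ≠ 0 → F (x * y) = F x + F y

theorem AddG.one {G : Type} [AddCommGroup G] {F : ℤ → G} (hF : AddG F) : F 1 = 0 := by
  have h := hF 1 1 one_ne_zero one_ne_zero
  rw [mul_one] at h
  exact left_eq_add.1 h

theorem exists_pair {G : Type} [AddCommGroup G] {K C : ℕ} (hSV : SVK K C) (hK : 1 ≤ K) (Q : ℤ)
    (hQ0 : 0 < Q) (hQ : ∀ p : ℕ, p.Prime → p ≤ 2 * K → (p : ℤ) ∣ Q) (Y : ℕ) (hY : 2 ≤ Y)
    (F : ℤ → G) (hF : AddG F) (H : AddSubgroup G) (p : ℕ) (hp : p.Prime) (hYp : Y < p)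
    (hpQ : Q ∣ (p : ℤ) - 1) (hpH : F p ∉ H) (A : ℤ) (hA : 0 ≤ A) :
    ∃ v v' : ℤ, A ≤ v ∧ v < v' ∧ v' - v ≤ 2 * (Y ^ C : ℕ) ∧
      1 + Q * v' ≤ p * (1 + Q * (A + (Y ^ C : ℕ))) ∧ Rough Y (1 + Q * v) ∧ Rough Y (1 + Q * v') ∧
      F (1 + Q * v') - F (1 + Q * v) ∉ H := by
  by_contra hcon
  have h : ∀ v v' : ℤ, A ≤ v → v < v' → v' - v ≤ 2 * (Y ^ C : ℕ) →
      1 + Q * v' ≤ p * (1 + Q * (A + (Y ^ C : ℕ))) → Rough Y (1 + Q * v) → Rough Y (1 + Q * v') →
      F (1 + Q * v') - F (1 + Q * v) ∈ H := by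
    intro v v' h1 h2 h3 h4 h5 h6
    by_contra h7
    exact hcon ⟨v, v', h1, h2, h3, h4, h5, h6, h7⟩
  have hM : (0 : ℤ) < (Y ^ C : ℕ) := by positivity
  obtain ⟨v₀, hv1, hv2, hv3⟩ := ex_one hSV hK Q hQ Y hY A
  have key : ∀ n : ℕ, ∀ v : ℤ, v₀ ≤ v → v - v₀ ≤ n → Rough Y (1 + Q * v) →
      1 + Q * v ≤ p * (1 + Q * (A + (Y ^ C : ℕ))) → F (1 + Q * v) - F (1 + Q * v₀) ∈ H := by
    intro n
    induction n with
    | zero =>
      intro v h1 h2 _ _
      have : v = v₀ := by
        push_cast at h2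
        linarith
      rw [this, sub_self]
      exact H.zero_mem
    | succ n ih =>
      intro v h1 h2 h3 h4
      rcases h1.eq_or_lt with h5 | h5
      · rw [← h5, sub_self]
        exact H.zero_mem
      by_cases h6 : v - v₀ ≤ 2 * (Y ^ C : ℕ)
      · exact h v₀ v hv1 h5 h6 h4 hv3 h3
      · push Not at h6
        obtain ⟨v1, g1, g2, g3⟩ := ex_one hSV hK Q hQ Y hY (v - 2 * (Y ^ C : ℕ))
        have g4 : v₀ ≤ v1 := by linarith
        have g5 : v1 < v := by linarith
        have g6 : 1 + Q * v1 ≤ p * (1 + Q * (A + (Y ^ C : ℕ))) := by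
          have : Q * v1 ≤ Q * v := mul_le_mul_of_nonneg_left g5.le hQ0.le
          linarith
        have e1 := ih v1 g4 (by push_cast at h2; linarith [Int.add_one_le_iff.2 g5]) g3 g6
        have e2 := h v1 v (hv1.trans g4) g5 (by linarith) h4 g3 h3
        have e3 := H.add_mem e2 e1
        rwa [sub_add_sub_cancel] at e3
  obtain ⟨w, hw⟩ := hpQ
  have hp1 : (1 : ℤ) ≤ p := by exact_mod_cast hp.one_lt.le
  have hw0 : 0 ≤ w := by
    have : 0 ≤ Q * w := by rw [← hw]; linarith
    exact nonneg_of_mul_nonneg_right this hQ0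
  have hv0 : 0 ≤ v₀ := hA.trans hv1
  have e : 1 + Q * (w + p * v₀) = p * (1 + Q * v₀) := by
    linear_combination -hw
  have hU0 : 1 + Q * v₀ ≠ 0 := rough_ne_zero hY hv3
  have hp0 : (p : ℤ) ≠ 0 := by linarith
  have hge : v₀ ≤ w + p * v₀ := by nlinarith
  have hb : 1 + Q * (w + p * v₀) ≤ p * (1 + Q * (A + (Y ^ C : ℕ))) := by
    rw [e]
    apply mul_le_mul_of_nonneg_left _ (by linarith)
    have : Q * v₀ ≤ Q * (A + (Y ^ C : ℕ)) := mul_le_mul_of_nonneg_left hv2.le hQ0.le
    linarith
  have hr : Rough Y (1 + Q * (w + p * v₀)) := by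
    rw [e]; exact rough_mul (rough_prime hp hYp) hv3
  have hfin := key (w + p * v₀ - v₀).toNat (w + p * v₀) hge (by omega) hr hb
  rw [e, hF _ _ hp0 hU0, add_sub_cancel_right] at hfin
  exact hpH hfin

open scoped Pointwise in
theorem grow {G : Type} [AddCommGroup G] [Fintype G] [DecidableEq G] (T : Finset G)
    (hT : T.Nonempty) (hT' : T ≠ univ) :
    ∃ H : AddSubgroup G, H ≠ ⊤ ∧ (∀ s s' : G, s' - s ∉ H →
      T.card < (T.image (fun x => s + x) ∪ T.image (fun x => s' + x)).card) ∧
      ((∀ x y z : G, x ∈ T → y ∈ T → z ∈ T → x - y + z ∈ T) → ∀ s s' : G, s' - s ∉ H →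
      2 * T.card ≤ (T.image (fun x => s + x) ∪ T.image (fun x => s' + x)).card) := by
  refine ⟨AddAction.stabilizer G T, ?_, ?_, ?_⟩
  · intro htop
    apply hT'
    obtain ⟨t, ht⟩ := hT
    rw [eq_univ_iff_forall]
    intro x
    have h1 : x - t ∈ AddAction.stabilizer G T := by rw [htop]; exact AddSubgroup.mem_top _
    rw [AddAction.mem_stabilizer_iff] at h1
    rw [← h1, Finset.mem_vadd_finset]
    exact ⟨t, ht, by rw [vadd_eq_add, sub_add_cancel]⟩
  · intro s s' hs
    have c1 : (T.image (fun x => s + x)).card = T.card :=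
      card_image_of_injective _ (add_right_injective s)
    have c2 : (T.image (fun x => s' + x)).card = T.card :=
      card_image_of_injective _ (add_right_injective s')
    rw [← c1]
    apply card_lt_card
    refine ⟨subset_union_left, fun hsub => hs ?_⟩
    have h1 : T.image (fun x => s' + x) ⊆ T.image (fun x => s + x) := subset_union_right.trans hsub
    have h2 : T.image (fun x => s' + x) = T.image (fun x => s + x) :=
      eq_of_subset_of_card_le h1 (by rw [c1, c2])
    rw [AddAction.mem_stabilizer_iff]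
    ext y
    rw [Finset.mem_vadd_finset]
    constructor
    · rintro ⟨x, hx, rfl⟩
      have h3 : s' + x ∈ T.image (fun x => s + x) := by
        rw [← h2]; exact mem_image_of_mem _ hx
      obtain ⟨z, hz, hz'⟩ := mem_image.1 h3
      have : (s' - s) +ᵥ x = z := by
        rw [vadd_eq_add]
        have : s' + x = s + z := hz'.symm
        rw [sub_add_eq_add_sub, this, add_sub_cancel_left]
      rw [this]; exact hz
    · intro hy
      have h3 : s + y ∈ T.image (fun x => s' + x) := by
        rw [h2]; exact mem_image_of_mem _ hy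
      obtain ⟨z, hz, hz'⟩ := mem_image.1 h3
      refine ⟨z, hz, ?_⟩
      rw [vadd_eq_add]
      have : s' + z = s + y := hz'
      rw [sub_add_eq_add_sub, this, add_sub_cancel_left]
  · intro hT3 s s' hs
    have c1 : (T.image (fun x => s + x)).card = T.card :=
      card_image_of_injective _ (add_right_injective s)
    have c2 : (T.image (fun x => s' + x)).card = T.card :=
      card_image_of_injective _ (add_right_injective s')
    have hdisj : Disjoint (T.image (fun x => s + x)) (T.image (fun x => s' + x)) := by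
      rw [Finset.disjoint_left]
      intro y hy hy'
      obtain ⟨t1, h1, e1⟩ := mem_image.1 hy
      obtain ⟨t2, h2, e2⟩ := mem_image.1 hy'
      apply hs
      have e3 : s' - s = t1 - t2 := by
        have : s + t1 = s' + t2 := e1.trans e2.symm
        rw [sub_eq_sub_iff_add_eq_add, ← this, add_comm]
      have hsub : ∀ t ∈ T, (s' - s) +ᵥ t ∈ T := by
        intro t ht
        rw [vadd_eq_add, e3]
        exact hT3 t1 t2 t h1 h2 ht
      have hsub' : (s' - s) +ᵥ T ⊆ T := by
        intro x hx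
        obtain ⟨t, ht, rfl⟩ := Finset.mem_vadd_finset.1 hx
        exact hsub t ht
      rw [AddAction.mem_stabilizer_iff]
      exact eq_of_subset_of_card_le hsub' (by rw [Finset.card_vadd_finset])
    rw [card_union_of_disjoint hdisj, c1, c2]
    omega

theorem family {G : Type} [AddCommGroup G] [Fintype G] [DecidableEq G] {K C : ℕ} (hSV : SVK K C)
    (hK : 1 ≤ K) (Q : ℤ)
    (hQ0 : 0 < Q) (hQ : ∀ p : ℕ, p.Prime → p ≤ 2 * K → (p : ℤ) ∣ Q) (Y : ℕ) (hY : 2 ≤ Y)
    (F : ℤ → G) (hF : AddG F)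
    (hprime : ∀ H : AddSubgroup G, H ≠ ⊤ → ∃ p : ℕ, p.Prime ∧ Y < p ∧ p ≤ Y ^ 3 ∧ Q ∣ (p : ℤ) - 1 ∧
      F p ∉ H) (A B : ℤ) (hA : 0 ≤ A) (hB : (Y ^ 3 : ℕ) * (1 + Q * (A + (Y ^ C : ℕ))) ≤ B)
    (δ : ℝ) (hδ : 0 ≤ δ) (hAδ : 2 * ((Y ^ C : ℕ) : ℝ) ≤ δ * A) :
    ∀ n : ℕ, ∃ 𝒱 : Finset ℤ, 𝒱.Nonempty ∧ 𝒱.card ≤ 2 ^ n ∧
      (∀ V ∈ 𝒱, 0 < V ∧ Rough Y V ∧ Q ∣ V - 1 ∧ V ≤ B ^ n) ∧
      (∀ V ∈ 𝒱, ∀ V' ∈ 𝒱, (V' : ℝ) ≤ V * (1 + δ) ^ n) ∧
      min (Fintype.card G) (n + 1) ≤ (𝒱.image F).card ∧
      ((∀ x : G, x + x = 0) → min (Fintype.card G) (2 ^ n) ≤ (𝒱.image F).card ∧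
        ∀ x y z : G, x ∈ 𝒱.image F → y ∈ 𝒱.image F → z ∈ 𝒱.image F → x - y + z ∈ 𝒱.image F) := by
  have hM : (0 : ℤ) < (Y ^ C : ℕ) := by positivity
  have hB1 : 1 ≤ B := by
    have h1 : (1 : ℤ) ≤ (Y ^ 3 : ℕ) := by
      have : 0 < Y ^ 3 := by positivity
      omega
    have h2 : 1 ≤ 1 + Q * (A + (Y ^ C : ℕ)) := by
      have : 0 ≤ Q * (A + (Y ^ C : ℕ)) := by positivity
      linarith
    nlinarith
  intro n
  induction n with
  | zero =>
    refine ⟨{1}, singleton_nonempty _, by simp, ?_, ?_, ?_, ?_⟩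
    · intro V hV
      rw [mem_singleton] at hV
      subst hV
      refine ⟨one_pos, ?_, by simp, by simp⟩
      intro p hp _ hd
      have h1 : p ∣ 1 := Int.natCast_dvd_natCast.1 (by simpa using hd)
      exact hp.one_lt.ne' (Nat.dvd_one.1 h1)
    · intro V hV V' hV'
      rw [mem_singleton] at hV hV'
      subst hV hV'
      simp
    · simp
    · intro _
      refine ⟨by simp, ?_⟩
      intro x y z hx hy hz
      rw [image_singleton, mem_singleton] at hx hy hz ⊢
      rw [hx, hy, hz, sub_self, zero_add]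
  | succ n ih =>
    obtain ⟨𝒱, h0, h1, h2, h3, h4, h5⟩ := ih
    have hδ1 : (1 : ℝ) ≤ 1 + δ := by linarith
    by_cases hfull : 𝒱.image F = univ
    · refine ⟨𝒱, h0, h1.trans (Nat.pow_le_pow_right (by norm_num) (Nat.le_succ n)), ?_, ?_, ?_, ?_⟩
      · intro V hV
        obtain ⟨g1, g2, g3, g4⟩ := h2 V hV
        exact ⟨g1, g2, g3, g4.trans (pow_le_pow_right₀ hB1 (Nat.le_succ n))⟩
      · intro V hV V' hV'
        refine (h3 V hV V' hV').trans ?_
        have hV0 : (0 : ℝ) ≤ V := by exact_mod_cast (h2 V hV).1.le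
        exact mul_le_mul_of_nonneg_left (pow_le_pow_right₀ hδ1 (Nat.le_succ n)) hV0
      · rw [hfull, card_univ]
        exact min_le_left _ _
      · intro _
        rw [hfull, card_univ]
        exact ⟨min_le_left _ _, fun _ _ _ _ _ _ => mem_univ _⟩
    · obtain ⟨H, hH, hgrow, hgrow2⟩ := grow (𝒱.image F) (h0.image F) hfull
      obtain ⟨p, hp, hYp, hpY, hpQ, hpH⟩ := hprime H hH
      obtain ⟨v, v', k1, k2, k3, k4, k5, k6, k7⟩ :=
        exists_pair hSV hK Q hQ0 hQ Y hY F hF H p hp hYp hpQ hpH A hA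
      set U : ℤ := 1 + Q * v with hU
      set U' : ℤ := 1 + Q * v' with hU'
      have hv0 : 0 ≤ v := hA.trans k1
      have hU0 : 0 < U := by
        have : 0 ≤ Q * v := by positivity
        rw [hU]; linarith
      have hUU : U ≤ U' := by
        have : Q * v ≤ Q * v' := mul_le_mul_of_nonneg_left k2.le hQ0.le
        rw [hU, hU']; linarith
      have hU'0 : 0 < U' := hU0.trans_le hUU
      have hU'B : U' ≤ B := by
        refine (k4.trans ?_).trans hB
        apply mul_le_mul_of_nonneg_right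
        · exact_mod_cast hpY
        · have : 0 ≤ Q * (A + (Y ^ C : ℕ)) := by positivity
          linarith
      have hclose : (U' : ℝ) ≤ U * (1 + δ) := by
        have e1 : (U' : ℝ) - U = Q * ((v' : ℝ) - v) := by
          rw [hU, hU']; push_cast; ring
        have e2 : ((v' : ℝ) - v) ≤ 2 * ((Y ^ C : ℕ) : ℝ) := by exact_mod_cast k3
        have hQr : (0 : ℝ) < Q := by exact_mod_cast hQ0
        have e3 : (Q : ℝ) * A ≤ U := by
          have : Q * A ≤ U := by
            have : Q * A ≤ Q * v := mul_le_mul_of_nonneg_left k1 hQ0.le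
            rw [hU]; linarith
          exact_mod_cast this
        have e4 : (Q : ℝ) * ((v' : ℝ) - v) ≤ Q * (δ * A) :=
          mul_le_mul_of_nonneg_left (e2.trans hAδ) hQr.le
        have e5 : (Q : ℝ) * (δ * A) ≤ δ * U := by
          calc (Q : ℝ) * (δ * A) = δ * (Q * A) := by ring
            _ ≤ δ * U := mul_le_mul_of_nonneg_left e3 hδ
        linarith
      have hUc : ∀ x ∈ ({U, U'} : Finset ℤ), ∀ y ∈ ({U, U'} : Finset ℤ),
          (y : ℝ) ≤ x * (1 + δ) := by
        have hU0r : (0 : ℝ) < U := by exact_mod_cast hU0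
        have hUUr : (U : ℝ) ≤ U' := by exact_mod_cast hUU
        have g1 : (U : ℝ) ≤ U * (1 + δ) := by nlinarith
        have g2 : (U' : ℝ) ≤ U' * (1 + δ) := by nlinarith
        have g3 : (U : ℝ) ≤ U' * (1 + δ) := hUUr.trans g2
        intro x hx y hy
        rw [mem_insert, mem_singleton] at hx hy
        rcases hx with rfl | rfl <;> rcases hy with rfl | rfl
        · exact g1
        · exact hclose
        · exact g3
        · exact g2
      have hUp : ∀ x ∈ ({U, U'} : Finset ℤ), 0 < x ∧ Rough Y x ∧ Q ∣ x - 1 ∧ x ≤ B := by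
        intro x hx
        rw [mem_insert, mem_singleton] at hx
        rcases hx with rfl | rfl
        · exact ⟨hU0, k5, ⟨v, by rw [hU]; ring⟩, hUU.trans hU'B⟩
        · exact ⟨hU'0, k6, ⟨v', by rw [hU']; ring⟩, hU'B⟩
      have hmem : ∀ x : ℤ, x ∈ 𝒱.image (fun V => U * V) ∪ 𝒱.image (fun V => U' * V) ↔
          ∃ y ∈ ({U, U'} : Finset ℤ), ∃ V ∈ 𝒱, y * V = x := by
        intro x
        rw [mem_union, mem_image, mem_image]
        constructor
        · rintro (⟨V, hV, rfl⟩ | ⟨V, hV, rfl⟩)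
          · exact ⟨U, by simp, V, hV, rfl⟩
          · exact ⟨U', by simp, V, hV, rfl⟩
        · rintro ⟨y, hy, V, hV, rfl⟩
          rw [mem_insert, mem_singleton] at hy
          rcases hy with rfl | rfl
          · exact Or.inl ⟨V, hV, rfl⟩
          · exact Or.inr ⟨V, hV, rfl⟩
      have himg : (𝒱.image (fun V => U * V) ∪ 𝒱.image (fun V => U' * V)).image F =
            (𝒱.image F).image (fun x => F U + x) ∪ (𝒱.image F).image (fun x => F U' + x) := by
        rw [image_union, image_image, image_image, image_image, image_image]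
        congr 1
        · apply image_congr
          intro V hV
          exact hF _ _ hU0.ne' (h2 V hV).1.ne'
        · apply image_congr
          intro V hV
          exact hF _ _ hU'0.ne' (h2 V hV).1.ne'
      refine ⟨𝒱.image (fun V => U * V) ∪ 𝒱.image (fun V => U' * V), ?_, ?_, ?_, ?_, ?_, ?_⟩
      · exact (h0.image _).mono subset_union_left
      · refine (card_union_le _ _).trans ?_
        rw [pow_succ]
        have g1 := card_image_le (s := 𝒱) (f := fun V => U * V)
        have g2 := card_image_le (s := 𝒱) (f := fun V => U' * V)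
        omega
      · intro x hx
        obtain ⟨y, hy, V, hV, rfl⟩ := (hmem x).1 hx
        obtain ⟨g1, g2, g3, g4⟩ := hUp y hy
        obtain ⟨l1, l2, l3, l4⟩ := h2 V hV
        refine ⟨mul_pos g1 l1, rough_mul g2 l2, ?_, ?_⟩
        · have : y * V - 1 = y * (V - 1) + (y - 1) := by ring
          rw [this]
          exact dvd_add (l3.mul_left _) g3
        · rw [pow_succ, mul_comm (B ^ n)]
          exact mul_le_mul g4 l4 l1.le (by linarith)
      · intro x hx x' hx'
        obtain ⟨y, hy, V, hV, rfl⟩ := (hmem x).1 hx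
        obtain ⟨y', hy', V', hV', rfl⟩ := (hmem x').1 hx'
        have g1 := hUc y hy y' hy'
        have g2 := h3 V hV V' hV'
        have g3 : (0 : ℝ) ≤ V' := by exact_mod_cast (h2 V' hV').1.le
        have g4 : (0 : ℝ) ≤ y := by exact_mod_cast (hUp y hy).1.le
        push_cast
        calc (y' : ℝ) * V' ≤ (y * (1 + δ)) * (V * (1 + δ) ^ n) :=
              mul_le_mul g1 g2 g3 (by positivity)
          _ = (y : ℝ) * V * (1 + δ) ^ (n + 1) := by ring
      · rw [himg]
        have := hgrow (F U) (F U') k7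
        omega
      · intro h2x
        obtain ⟨h6, h7⟩ := h5 h2x
        rw [himg]
        constructor
        · have := hgrow2 h7 (F U) (F U') k7
          rw [pow_succ]
          omega
        · have hsub : ∀ x y : G, x - y = x + y := by
            intro x y
            rw [sub_eq_add_neg, neg_eq_of_add_eq_zero_left (h2x y)]
          have hm : ∀ x : G, x ∈ (𝒱.image F).image (fun x => F U + x) ∪
              (𝒱.image F).image (fun x => F U' + x) ↔
              ∃ s ∈ ({F U, F U'} : Finset G), ∃ t ∈ 𝒱.image F, s + t = x := by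
            intro x
            rw [mem_union, mem_image, mem_image]
            constructor
            · rintro (⟨t, ht, rfl⟩ | ⟨t, ht, rfl⟩)
              · exact ⟨F U, by simp, t, ht, rfl⟩
              · exact ⟨F U', by simp, t, ht, rfl⟩
            · rintro ⟨s, hs, t, ht, rfl⟩
              rw [mem_insert, mem_singleton] at hs
              rcases hs with rfl | rfl
              · exact Or.inl ⟨t, ht, rfl⟩
              · exact Or.inr ⟨t, ht, rfl⟩
          have hs3 : ∀ s1 ∈ ({F U, F U'} : Finset G), ∀ s2 ∈ ({F U, F U'} : Finset G),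
              ∀ s3 ∈ ({F U, F U'} : Finset G), s1 - s2 + s3 ∈ ({F U, F U'} : Finset G) := by
            have k1 : ∀ α β : G, α - β + α = β := by
              intro α β
              rw [hsub, add_right_comm, h2x, zero_add]
            intro s1 g1 s2 g2 s3 g3
            rw [mem_insert, mem_singleton] at g1 g2 g3 ⊢
            rcases g1 with g1 | g1 <;> rcases g2 with g2 | g2 <;> rcases g3 with g3 | g3 <;>
              rw [g1, g2, g3] <;> simp [k1]
          intro x y z hx hy hz
          obtain ⟨s1, g1, t1, l1, rfl⟩ := (hm x).1 hx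
          obtain ⟨s2, g2, t2, l2, rfl⟩ := (hm y).1 hy
          obtain ⟨s3, g3, t3, l3, rfl⟩ := (hm z).1 hz
          refine (hm _).2 ⟨s1 - s2 + s3, hs3 s1 g1 s2 g2 s3 g3, t1 - t2 + t3,
            h7 t1 t2 t3 l1 l2 l3, ?_⟩
          abel

end Pool.Agent.H72.CG
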