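import Mathlib
import Pool.Graph.R_seed8.H661R3.OP.SV

/-!
The Brun-Hooley sieve for boundedly many arbitrary residue classes modulo each prime, in the form of the
sieve for linear forms of the library (`Pool.Agent.H661R3.OP.t_SV`, whose proof is followed).
-/

set_option autoImplicit false

open Finset

namespace Pool.Agent.H72.CG

open Pool.Agent.H661R3.OP.SVA (one_sub_ge tel prod_ge exists_J prime_of_mem_Pr)
open Pool.Agent.H410R2.ED (Pr BHK CountCRT)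

/-- the sieve: `S l` are at most `K` classes modulo each prime `l`, none for `l ≤ 2 K` -/
def SVG (K C : ℕ) : Prop := ∀ (Y : ℕ), 2 ≤ Y → ∀ S : ℕ → Finset ℤ,
  (∀ l : ℕ, l.Prime → (S l).card ≤ K) → (∀ l : ℕ, l.Prime → l ≤ 2 * K → S l = ∅) →
  ∀ (T₀ : ℤ) (T : ℕ), Y ^ C ≤ T →
  T ≤ Y ^ C * {t : ℤ | T₀ ≤ t ∧ t < T₀ + T ∧
    ∀ l : ℕ, l.Prime → l ≤ Y → ∀ s ∈ S l, ¬ (l : ℤ) ∣ t - s}.ncard

/-- the sifting condition -/
def PG (S : ℕ → Finset ℤ) (Y : ℕ) (T₀ : ℤ) (l n : ℕ) : Prop :=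
  l ≤ Y ∧ ∃ s ∈ S l, (l : ℤ) ∣ T₀ + n - s

theorem PG_shift (S : ℕ → Finset ℤ) (Y : ℕ) (T₀ : ℤ) (l n : ℕ) :
    PG S Y T₀ l (n + l) ↔ PG S Y T₀ l n := by
  unfold PG
  refine and_congr_right fun _ => exists_congr fun s => and_congr_right fun _ => ?_
  push_cast
  rw [show T₀ + ((n : ℤ) + l) - s = (l : ℤ) + (T₀ + n - s) by ring]
  exact dvd_add_right (dvd_refl _)

open Classical in
theorem countG_le (S : ℕ → Finset ℤ) (Y : ℕ) (T₀ : ℤ) (K : ℕ)
    (hS : ∀ l : ℕ, l.Prime → (S l).card ≤ K) {l : ℕ} (hl : l.Prime) :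
    ((range l).filter (PG S Y T₀ l)).card ≤ K := by
  have h1 : (range l).filter (PG S Y T₀ l) ⊆
      (S l).biUnion (fun s => (range l).filter (fun n : ℕ => (l : ℤ) ∣ T₀ + n - s)) := by
    intro n hn
    rw [mem_filter] at hn
    obtain ⟨hn1, -, s, hs, hd⟩ := hn
    rw [mem_biUnion]
    exact ⟨s, hs, mem_filter.2 ⟨hn1, hd⟩⟩
  refine (card_le_card h1).trans (card_biUnion_le.trans ?_)
  calc ∑ s ∈ S l, ((range l).filter (fun n : ℕ => (l : ℤ) ∣ T₀ + n - s)).card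
      ≤ ∑ _s ∈ S l, 1 := by
        refine sum_le_sum fun s _ => ?_
        rw [card_le_one]
        intro r hr r' hr'
        rw [mem_filter, mem_range] at hr hr'
        have h3 : (l : ℤ) ∣ (r : ℤ) - r' := by
          have := dvd_sub hr.2 hr'.2
          rwa [show T₀ + (r : ℤ) - s - (T₀ + (r' : ℤ) - s) = (r : ℤ) - r' by ring] at this
        have h4 : (r' : ℤ) ≡ r [ZMOD l] := (Int.modEq_iff_dvd).2 h3
        have h5 : r' ≡ r [MOD l] := (Int.natCast_modEq_iff).1 h4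
        exact (Nat.ModEq.eq_of_lt_of_lt h5 hr'.1 hr.1).symm
    _ = (S l).card := by simp
    _ ≤ K := hS l hl

/-- the modulus attached to `n` -/
noncomputable def nG (S : ℕ → Finset ℤ) (Y : ℕ) (T₀ : ℤ) (k J n : ℕ) : ℕ :=
  open Classical in ∏ l ∈ (Pr k J).filter (fun l => PG S Y T₀ l n), l

theorem dvd_nG (S : ℕ → Finset ℤ) (Y : ℕ) (T₀ : ℤ) {k J l : ℕ} (n : ℕ) (hl : l ∈ Pr k J) :
    l ∣ nG S Y T₀ k J n ↔ PG S Y T₀ l n := by
  classical
  unfold nG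
  rw [Prime.dvd_finsetProd_iff (prime_of_mem_Pr hl).prime]
  constructor
  · rintro ⟨p, hp, hlp⟩
    rw [mem_filter] at hp
    have : l = p := (Nat.prime_dvd_prime_iff_eq (prime_of_mem_Pr hl) (prime_of_mem_Pr hp.1)).1 hlp
    subst this
    exact hp.2
  · intro h
    exact ⟨l, mem_filter.2 ⟨hl, by convert h⟩, dvd_rfl⟩

theorem exists_SVG (K : ℕ) (hK1 : 1 ≤ K) : ∃ C : ℕ, SVG K C := by
  classical
  obtain ⟨c₀, hc₀, hB⟩ := Pool.Agent.H483R2.bhk
  refine ⟨4 * K + 2 * c₀ * K + 2, ?_⟩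
  intro Y hY S hcard hsm T₀ T hT
  obtain ⟨J, hJ1, hJ2⟩ := exists_J hY
  set g : ℕ → ℝ := fun l => (((range l).filter (PG S Y T₀ l)).card : ℝ) / l with hg
  have hcnt : ∀ l : ℕ, l.Prime → (((range l).filter (PG S Y T₀ l)).card : ℝ) ≤ K := by
    intro l hl
    exact_mod_cast countG_le S Y T₀ K hcard hl
  have hg0 : ∀ l, l.Prime → 0 ≤ g l ∧ g l ≤ (K : ℝ) / l := by
    intro l hl
    refine ⟨by simp only [hg]; positivity, ?_⟩
    simp only [hg]
    exact div_le_div_of_nonneg_right (hcnt l hl) (Nat.cast_nonneg _)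
  have hmain := hB K hK1 g hg0 J ℕ (Ico 0 (0 + T)) (nG S Y T₀ K J) T 1 (Nat.cast_nonneg _)
    zero_le_one (by
      intro D hD
      have h1 := Pool.Agent.H483R2.countCRT D (PG S Y T₀) (fun l hl => prime_of_mem_Pr (hD hl))
        (fun l _ n => PG_shift S Y T₀ l n) 0 T
      have hset : (Ico 0 (0 + T)).filter (fun ω => ∀ l ∈ D, l ∣ nG S Y T₀ K J ω) =
          (Ico 0 (0 + T)).filter (fun n => ∀ l ∈ D, PG S Y T₀ l n) := by
        apply filter_congr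
        intro n _
        exact forall₂_congr fun l hl => dvd_nG S Y T₀ n (hD hl)
      rw [hset, mul_one]
      refine h1.trans ?_
      calc ∏ l ∈ D, (((range l).filter (PG S Y T₀ l)).card : ℝ)
          ≤ ∏ l ∈ D, (K : ℝ) := by
            refine prod_le_prod (fun _ _ => Nat.cast_nonneg _) fun l hl => ?_
            exact hcnt l (prime_of_mem_Pr (hD hl))
        _ = (K : ℝ) ^ D.card := by rw [prod_const])
  have hlow := hmain.1
  set N : ℕ := ((Ico 0 (0 + T)).filter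
    (fun ω => ∀ l ∈ Pr K J, ¬ l ∣ nG S Y T₀ K J ω)).card with hN
  have hprod := prod_ge (k := K) (J := J) g (fun l hl => (hg0 l (prime_of_mem_Pr hl)).2)
  -- the transfer
  have htr : N ≤ {t : ℤ | T₀ ≤ t ∧ t < T₀ + T ∧
      ∀ l : ℕ, l.Prime → l ≤ Y → ∀ s ∈ S l, ¬ (l : ℤ) ∣ t - s}.ncard := by
    rw [hN, ← card_image_of_injective (f := fun n : ℕ => T₀ + (n : ℤ)) _ (by
      intro a b h
      simpa using h), ← Set.ncard_coe_finset]
    apply Set.ncard_le_ncard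
    · intro t ht
      rw [mem_coe, mem_image] at ht
      obtain ⟨n, hn, rfl⟩ := ht
      rw [mem_filter, mem_Ico] at hn
      refine ⟨by omega, by omega, ?_⟩
      intro p hp hpY s hs hdvd
      by_cases hpk : p ≤ 2 * K
      · rw [hsm p hp hpk] at hs
        simp at hs
      · have hmem : p ∈ Pr K J := by
          unfold Pr
          rw [mem_filter, mem_range]
          exact ⟨by omega, hp, by omega⟩
        exact hn.2 p hmem ((dvd_nG S Y T₀ n hmem).2 ⟨hpY, s, hs, hdvd⟩)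
    · refine (Set.finite_Ico T₀ (T₀ + T)).subset ?_
      rintro t ⟨h1, h2, -⟩
      exact ⟨h1, h2⟩
  refine le_trans ?_ (Nat.mul_le_mul_left _ htr)
  -- the numbers
  set y : ℝ := (2 : ℝ) ^ 2 ^ J with hy
  have hy1 : 1 ≤ y := one_le_pow₀ (by norm_num)
  have hyY : y ≤ (Y : ℝ) ^ 2 := by
    rw [hy]; exact_mod_cast hJ2
  set A : ℝ := y ^ (2 * K) with hA
  set B : ℝ := y ^ (c₀ * K) with hBB
  have hA1 : 1 ≤ A := one_le_pow₀ hy1
  have hB1 : 1 ≤ B := one_le_pow₀ hy1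
  have hAY : A ≤ (Y : ℝ) ^ (4 * K) := by
    calc A ≤ ((Y : ℝ) ^ 2) ^ (2 * K) := pow_le_pow_left₀ (by linarith) hyY _
      _ = (Y : ℝ) ^ (4 * K) := by rw [← pow_mul]; congr 1; ring
  have hBY : B ≤ (Y : ℝ) ^ (2 * c₀ * K) := by
    calc B ≤ ((Y : ℝ) ^ 2) ^ (c₀ * K) := pow_le_pow_left₀ (by linarith) hyY _
      _ = (Y : ℝ) ^ (2 * c₀ * K) := by rw [← pow_mul]; congr 1; ring
  have hYr : (2 : ℝ) ≤ Y := by exact_mod_cast hY
  have hYC : 4 * (A * B) ≤ (Y : ℝ) ^ (4 * K + 2 * c₀ * K + 2) := by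
    rw [pow_add, pow_add]
    have h1 : A * B ≤ (Y : ℝ) ^ (4 * K) * (Y : ℝ) ^ (2 * c₀ * K) :=
      mul_le_mul hAY hBY (by linarith) (by positivity)
    have h2 : (4 : ℝ) ≤ (Y : ℝ) ^ 2 := by nlinarith
    calc 4 * (A * B) = (A * B) * 4 := by ring
      _ ≤ ((Y : ℝ) ^ (4 * K) * (Y : ℝ) ^ (2 * c₀ * K)) * (Y : ℝ) ^ 2 :=
        mul_le_mul h1 h2 (by norm_num) (by positivity)
  have hTr : (Y : ℝ) ^ (4 * K + 2 * c₀ * K + 2) ≤ T := by exact_mod_cast hT
  have hT0 : (0 : ℝ) ≤ T := Nat.cast_nonneg _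
  have hABT : 4 * (A * B) ≤ T := hYC.trans hTr
  have hA0 : 0 < A := by linarith
  -- lower bound
  have h5 : (T : ℝ) / (4 * A) ≤ N := by
    have h6 : (T : ℝ) / 2 * (1 / A) - B ≤ N := by
      have h7 : (T : ℝ) / 2 * (1 / A) ≤ (T : ℝ) / 2 * ∏ l ∈ Pr K J, (1 - g l) :=
        mul_le_mul_of_nonneg_left hprod (by positivity)
      rw [mul_one] at hlow
      linarith
    have h8 : B ≤ (T : ℝ) / (4 * A) := by
      rw [le_div_iff₀ (by positivity)]
      linarith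
    have h9 : (T : ℝ) / 2 * (1 / A) = T / (4 * A) + T / (4 * A) := by
      field_simp
      ring
    linarith
  have h10 : (T : ℝ) ≤ (Y : ℝ) ^ (4 * K + 2 * c₀ * K + 2) * N := by
    have h11 : 4 * A ≤ (Y : ℝ) ^ (4 * K + 2 * c₀ * K + 2) := by
      refine le_trans ?_ hYC
      nlinarith
    calc (T : ℝ) = 4 * A * (T / (4 * A)) := by field_simp
      _ ≤ 4 * A * N := mul_le_mul_of_nonneg_left h5 (by positivity)
      _ ≤ _ := mul_le_mul_of_nonneg_right h11 (Nat.cast_nonneg _)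
  exact_mod_cast h10

end Pool.Agent.H72.CG
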