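import Mathlib
import Pool.Agent.H72.CG.Pair

/-!
Counting the rough tuples of a short interval at which an additive function takes a given value.
-/

set_option autoImplicit false

open Finset

namespace Pool.Agent.H72.CG

open Pool.Agent.H661R3.OP (Rough)
open Pool.Agent.W5h75.SP (SVK ex_one rough_mul rough_prime rough_ne_zero)

/-- the rough tuples in the interval `(X, X + Z]` and in the class of `n₀` modulo `W` with the value
`c` at the form `o` -/
def Val {G : Type} {ι : Type} (a b : ι → ℤ) (o : ι) (F : ℤ → G) (c : G) (W : ℕ) (n₀ : ℤ) (Y : ℕ)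
    (X Z : ℤ) : Set ℤ :=
  {n : ℤ | X < n ∧ n ≤ X + Z ∧ (W : ℤ) ∣ n - n₀ ∧ (∀ i, Rough Y (a i * n + b i)) ∧
    F (a o * n + b o) = c}

theorem val_finite {G : Type} {ι : Type} (a b : ι → ℤ) (o : ι) (F : ℤ → G) (c : G) (W : ℕ) (n₀ : ℤ)
    (Y : ℕ) (X Z : ℤ) : (Val a b o F c W n₀ Y X Z).Finite :=
  (Set.finite_Ioc X (X + Z)).subset fun _ hn => ⟨hn.1, hn.2.1⟩

theorem count {G : Type} [AddCommGroup G] {ι : Type} [Fintype ι] (a b : ι → ℤ) (o : ι) (W : ℕ)
    (n₀ : ℤ) (K C : ℕ) (hSV : SVK K C) (hW : 0 < W)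
    (hWp : ∀ p : ℕ, p.Prime → p ≤ 2 * K → p ∣ W)
    (hWa : ∀ i, ∀ p : ℕ, p.Prime → (p : ℤ) ∣ a i → p ∣ W) (Y : ℕ) (hY : 2 ≤ Y)
    (hao : 0 < a o)
    (hn₀ : ∀ i, ∀ p : ℕ, p.Prime → p ∣ W → ¬ (p : ℤ) ∣ a i * n₀ + b i)
    (F : ℤ → G) (hF : AddG F) (X Z : ℤ) (hZX : Z ≤ X) (hX : 0 < X) (hb : |b o| < X)
    (𝒱 : Finset ℤ) (hcard : 𝒱.card * Fintype.card ι ≤ K)
    (h𝒱 : ∀ V ∈ 𝒱, 0 < V ∧ Rough Y V ∧ (a o * W) ∣ V - 1)
    (hclose : ∀ V ∈ 𝒱, ∀ V' ∈ 𝒱, 6 * X * (V' - V) ≤ Z * V)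
    (himage : ∀ g : G, ∃ V ∈ 𝒱, F V = g) (T : ℕ) (hT : Y ^ C ≤ T)
    (hlen : ∀ V ∈ 𝒱, 2 * W * V * T ≤ Z) (c : G) :
    T ≤ Y ^ C * (𝒱.card * (Val a b o F c W n₀ Y X Z).ncard) := by
  classical
  have hne : 𝒱.Nonempty := by
    obtain ⟨V, hV, -⟩ := himage 0
    exact ⟨V, hV⟩
  obtain ⟨V1, hV1, hmin⟩ := 𝒱.exists_min_image id hne
  simp only [id] at hmin
  set μ : ℤ := a o * n₀ + b o with hμ
  have hWz : (0 : ℤ) < W := by exact_mod_cast hW
  set Q : ℤ := a o * W with hQ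
  have hQ0 : 0 < Q := mul_pos hao hWz
  obtain ⟨hV10, hV1r, hV1Q⟩ := h𝒱 V1 hV1
  have hVQ : 0 < V1 * Q := mul_pos hV10 hQ0
  obtain ⟨hb1, hb2⟩ := abs_lt.1 hb
  have haX : X ≤ a o * X := by nlinarith
  -- the start of the range of `t`
  set D : ℤ := a o * X + b o - V1 * μ with hD
  set T₀ : ℤ := D / (V1 * Q) + 1 with hT₀
  have hdiv : (V1 * Q) * (D / (V1 * Q)) + D % (V1 * Q) = D := Int.mul_ediv_add_emod _ _
  have hm0 : 0 ≤ D % (V1 * Q) := Int.emod_nonneg _ hVQ.ne'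
  have hm1 : D % (V1 * Q) < V1 * Q := Int.emod_lt_of_pos _ hVQ
  have hlow : ∀ t : ℤ, T₀ ≤ t → a o * X + b o < V1 * (μ + Q * t) := by
    intro t ht
    have h1 : V1 * Q * T₀ ≤ V1 * Q * t := mul_le_mul_of_nonneg_left ht hVQ.le
    have h2 : V1 * Q * T₀ = (V1 * Q) * (D / (V1 * Q)) + V1 * Q := by
      rw [hT₀]; ring
    have h3 : V1 * (μ + Q * t) = V1 * μ + V1 * Q * t := by ring
    rw [h3]
    linarith
  have hhigh : ∀ t : ℤ, t < T₀ + T → V1 * (μ + Q * t) ≤ a o * X + b o + V1 * Q * T := by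
    intro t ht
    have h0 : t ≤ T₀ + T - 1 := by omega
    have h1 : V1 * Q * t ≤ V1 * Q * (T₀ + T - 1) := mul_le_mul_of_nonneg_left h0 hVQ.le
    have h2 : V1 * Q * (T₀ + T - 1) = (V1 * Q) * (D / (V1 * Q)) + V1 * Q * T := by
      rw [hT₀]; ring
    have h3 : V1 * (μ + Q * t) = V1 * μ + V1 * Q * t := by ring
    rw [h3]
    linarith
  -- the integer which belongs to `V` and `t`
  set v : ℤ → ℤ := fun V => (V - 1) / Q with hv
  have hvV : ∀ V ∈ 𝒱, V = 1 + Q * v V := by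
    intro V hV
    have := Int.mul_ediv_cancel' (h𝒱 V hV).2.2
    simp only [hv]
    linarith
  set nn : ℤ → ℤ → ℤ := fun V t => n₀ + W * v V * μ + W * V * t with hnn
  have e1 : ∀ V ∈ 𝒱, ∀ t, a o * nn V t + b o = V * (μ + Q * t) := by
    intro V hV t
    have h1 := hvV V hV
    have h2 : a o * nn V t + b o = μ + Q * v V * μ + Q * V * t := by
      simp only [hnn]
      rw [hQ, hμ]
      ring
    rw [h2]
    linear_combination (-μ) * h1
  have hZ0 : 0 ≤ Z := by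
    have : (0 : ℤ) ≤ 2 * W * V1 * (T : ℤ) := by positivity
    exact this.trans (hlen V1 hV1)
  -- the interval
  have hin : ∀ t, T₀ ≤ t → t < T₀ + T → 0 < μ + Q * t ∧
      ∀ V ∈ 𝒱, X < nn V t ∧ nn V t ≤ X + Z := by
    intro t ht1 ht2
    have h1 := hlow t ht1
    have h2 := hhigh t ht2
    have h3 : 0 < V1 * (μ + Q * t) := by linarith
    have h4 : 0 < μ + Q * t := pos_of_mul_pos_right h3 hV10.le
    refine ⟨h4, fun V hV => ?_⟩
    have h5 : V1 ≤ V := hmin V hV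
    have h6 : V1 * (μ + Q * t) ≤ V * (μ + Q * t) := mul_le_mul_of_nonneg_right h5 h4.le
    have h7 := e1 V hV t
    have h8 : 2 * (V1 * Q * T) ≤ a o * Z := by
      have := mul_le_mul_of_nonneg_left (hlen V1 hV1) hao.le
      calc 2 * (V1 * Q * T) = a o * (2 * W * V1 * T) := by rw [hQ]; ring
        _ ≤ a o * Z := this
    have h9 : a o * Z ≤ a o * X := mul_le_mul_of_nonneg_left hZX hao.le
    have h10 : 2 * (V1 * (μ + Q * t)) ≤ 5 * (a o * X) := by linarith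
    have h11 : 12 * ((V - V1) * (μ + Q * t)) ≤ 5 * (a o * Z) := by
      have g1 : X * (12 * ((V - V1) * (μ + Q * t))) ≤ X * (5 * (a o * Z)) := by
        calc X * (12 * ((V - V1) * (μ + Q * t)))
            = 2 * ((6 * X * (V - V1)) * (μ + Q * t)) := by ring
          _ ≤ 2 * ((Z * V1) * (μ + Q * t)) := by
            have := mul_le_mul_of_nonneg_right (hclose V1 hV1 V hV) h4.le
            linarith
          _ = Z * (2 * (V1 * (μ + Q * t))) := by ring
          _ ≤ Z * (5 * (a o * X)) := mul_le_mul_of_nonneg_left h10 hZ0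
          _ = X * (5 * (a o * Z)) := by ring
      exact le_of_mul_le_mul_left g1 hX
    have h12 : V * (μ + Q * t) = V1 * (μ + Q * t) + (V - V1) * (μ + Q * t) := by ring
    constructor
    · have : a o * X < a o * nn V t := by linarith
      exact lt_of_mul_lt_mul_left this hao.le
    · have : a o * nn V t ≤ a o * (X + Z) := by
        have h13 : 0 ≤ a o * Z := mul_nonneg hao.le hZ0
        rw [mul_add]
        linarith
      exact le_of_mul_le_mul_left this hao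
  -- the sieve
  have hs := hSV ({V // V ∈ 𝒱} × ι) (by
      rw [Fintype.card_prod, Fintype.card_coe]; exact hcard)
    (fun x => a x.2 * x.1.1 * W) (fun x => a x.2 * (n₀ + W * v x.1.1 * μ) + b x.2) Y hY (by
      rintro ⟨⟨V, hV⟩, i⟩ p hp hpY hd hd'
      simp only at hd hd'
      have hpW : p ∣ W := by
        rcases Int.Prime.dvd_mul' hp hd with h | h
        · rcases Int.Prime.dvd_mul' hp h with h | h
          · exact hWa i p hp h
          · exact absurd h ((h𝒱 V hV).2.1 p hp hpY)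
        · exact Int.natCast_dvd_natCast.1 h
      have h1 : (p : ℤ) ∣ a i * n₀ + b i := by
        have h2 : a i * n₀ + b i = (a i * (n₀ + W * v V * μ) + b i) - W * (a i * v V * μ) := by
          ring
        rw [h2]
        exact dvd_sub hd' ((Int.natCast_dvd_natCast.2 hpW).mul_right _)
      exact hn₀ i p hp hpW h1)
    (by
      rintro ⟨⟨V, hV⟩, i⟩ p hp hpK
      exact (Int.natCast_dvd_natCast.2 (hWp p hp hpK)).mul_left _)
    T₀ T hT
  set Gd : Set ℤ := {t : ℤ | T₀ ≤ t ∧ t < T₀ + T ∧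
    ∀ x : {V // V ∈ 𝒱} × ι,
      Rough Y (a x.2 * x.1.1 * W * t + (a x.2 * (n₀ + W * v x.1.1 * μ) + b x.2))} with hG
  have hr : ∀ t ∈ Gd, ∀ V ∈ 𝒱, ∀ i, Rough Y (a i * nn V t + b i) := by
    intro t ht V hV i
    have h1 := ht.2.2 (⟨V, hV⟩, i)
    have e : a i * nn V t + b i = a i * V * W * t + (a i * (n₀ + W * v V * μ) + b i) := by
      simp only [hnn]
      ring
    rw [e]
    exact h1
  -- the choice of `V`
  choose! U hU1 hU2 using himage
  have hmap : ∀ t ∈ Gd, (U (c - F (μ + Q * t)), nn (U (c - F (μ + Q * t))) t) ∈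
      (𝒱 : Set ℤ) ×ˢ Val a b o F c W n₀ Y X Z := by
    intro t ht
    obtain ⟨h1, h2⟩ := hin t ht.1 ht.2.1
    have h3 := hU1 (c - F (μ + Q * t))
    refine ⟨h3, (h2 _ h3).1, (h2 _ h3).2, ?_, hr t ht _ h3, ?_⟩
    · refine ⟨v (U (c - F (μ + Q * t))) * μ + U (c - F (μ + Q * t)) * t, ?_⟩
      simp only [hnn]
      ring
    · rw [e1 _ h3, hF _ _ (h𝒱 _ h3).1.ne' h1.ne', hU2, sub_add_cancel]
  have hinj : Set.InjOn (fun t => (U (c - F (μ + Q * t)), nn (U (c - F (μ + Q * t))) t)) Gd := by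
    intro t ht t' ht' heq
    simp only [Prod.mk.injEq] at heq
    obtain ⟨h1, h2⟩ := heq
    rw [h1] at h2
    have h3 := hU1 (c - F (μ + Q * t'))
    have h4 := (h𝒱 _ h3).1
    simp only [hnn] at h2
    have h5 : W * U (c - F (μ + Q * t')) * t = W * U (c - F (μ + Q * t')) * t' := by linarith
    exact mul_left_cancel₀ (mul_pos hWz h4).ne' h5
  have hfin : ((𝒱 : Set ℤ) ×ˢ Val a b o F c W n₀ Y X Z).Finite :=
    (Finset.finite_toSet 𝒱).prod (val_finite _ _ _ _ _ _ _ _ _ _)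
  have hle : Gd.ncard ≤ 𝒱.card * (Val a b o F c W n₀ Y X Z).ncard := by
    have := Set.ncard_le_ncard_of_injOn _ hmap hinj hfin
    rwa [Set.ncard_prod, Set.ncard_coe_finset] at this
  exact hs.trans (Nat.mul_le_mul_left _ hle)

end Pool.Agent.H72.CG
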