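import Mathlib
import Pool.Agent.H72.CG.Pair
import Pool.Agent.H72.CG.Sieve

/-!
Counting the integers of a short interval which avoid boundedly many arbitrary residue classes modulo
each small prime and at which an additive function takes a given value.
-/

set_option autoImplicit false

open Finset

namespace Pool.Agent.H72.CG

open Pool.Agent.H661R3.OP (Rough)
open Pool.Agent.W5h75.SP (SVK ex_one rough_mul rough_prime rough_ne_zero)

/-- the `Y`-rough integers in the interval `(X, X + Z]` and in the class of `n₀` modulo `W` which are in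
none of the classes `B p` modulo `p`, `p ≤ Y`, with the value `c` -/
def ValG {G : Type} (B : ℕ → Finset ℤ) (F : ℤ → G) (c : G) (W : ℕ) (n₀ : ℤ) (Y : ℕ)
    (X Z : ℤ) : Set ℤ :=
  {n : ℤ | X < n ∧ n ≤ X + Z ∧ (W : ℤ) ∣ n - n₀ ∧ Rough Y n ∧
    (∀ p : ℕ, p.Prime → p ≤ Y → ∀ e ∈ B p, ¬ (p : ℤ) ∣ n - e) ∧ F n = c}

theorem valG_finite {G : Type} (B : ℕ → Finset ℤ) (F : ℤ → G) (c : G) (W : ℕ) (n₀ : ℤ)
    (Y : ℕ) (X Z : ℤ) : (ValG B F c W n₀ Y X Z).Finite :=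
  (Set.finite_Ioc X (X + Z)).subset fun _ hn => ⟨hn.1, hn.2.1⟩

theorem countG {G : Type} [AddCommGroup G] (W : ℕ)
    (n₀ : ℤ) (K C : ℕ) (hSV : SVG K C) (hW : 0 < W)
    (hWp : ∀ p : ℕ, p.Prime → p ≤ 2 * K → p ∣ W) (Y : ℕ) (hY : 2 ≤ Y)
    (B : ℕ → Finset ℤ) (κ : ℕ) (hB : ∀ p : ℕ, p.Prime → (B p).card ≤ κ)
    (hn₀ : ∀ p : ℕ, p.Prime → p ∣ W → ¬ (p : ℤ) ∣ n₀ ∧ ∀ e ∈ B p, ¬ (p : ℤ) ∣ n₀ - e)
    (F : ℤ → G) (hF : AddG F) (X Z : ℤ) (hZX : Z ≤ X) (hX : 0 < X)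
    (𝒱 : Finset ℤ) (hcard : 𝒱.card * κ + 1 ≤ K)
    (h𝒱 : ∀ V ∈ 𝒱, 0 < V ∧ Rough Y V ∧ (W : ℤ) ∣ V - 1)
    (hclose : ∀ V ∈ 𝒱, ∀ V' ∈ 𝒱, 6 * X * (V' - V) ≤ Z * V)
    (himage : ∀ g : G, ∃ V ∈ 𝒱, F V = g) (T : ℕ) (hT : Y ^ C ≤ T)
    (hlen : ∀ V ∈ 𝒱, 2 * W * V * T ≤ Z) (c : G) :
    T ≤ Y ^ C * (𝒱.card * (ValG B F c W n₀ Y X Z).ncard) := by
  classical
  have hne : 𝒱.Nonempty := by
    obtain ⟨V, hV, -⟩ := himage 0
    exact ⟨V, hV⟩
  obtain ⟨V1, hV1, hmin⟩ := 𝒱.exists_min_image id hne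
  simp only [id] at hmin
  have hWz : (0 : ℤ) < W := by exact_mod_cast hW
  obtain ⟨hV10, hV1r, hV1W⟩ := h𝒱 V1 hV1
  have hVW : 0 < V1 * W := mul_pos hV10 hWz
  -- the start of the range of `t`
  set D : ℤ := X - V1 * n₀ with hD
  set T₀ : ℤ := D / (V1 * W) + 1 with hT₀
  have hdiv : (V1 * W) * (D / (V1 * W)) + D % (V1 * W) = D := Int.mul_ediv_add_emod _ _
  have hm0 : 0 ≤ D % (V1 * W) := Int.emod_nonneg _ hVW.ne'
  have hm1 : D % (V1 * W) < V1 * W := Int.emod_lt_of_pos _ hVW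
  have hlow : ∀ t : ℤ, T₀ ≤ t → X < V1 * (n₀ + W * t) := by
    intro t ht
    have h1 : V1 * W * T₀ ≤ V1 * W * t := mul_le_mul_of_nonneg_left ht hVW.le
    have h2 : V1 * W * T₀ = (V1 * W) * (D / (V1 * W)) + V1 * W := by
      rw [hT₀]; ring
    have h3 : V1 * (n₀ + W * t) = V1 * n₀ + V1 * W * t := by ring
    rw [h3]
    linarith
  have hhigh : ∀ t : ℤ, t < T₀ + T → V1 * (n₀ + W * t) ≤ X + V1 * W * T := by
    intro t ht
    have h0 : t ≤ T₀ + T - 1 := by omega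
    have h1 : V1 * W * t ≤ V1 * W * (T₀ + T - 1) := mul_le_mul_of_nonneg_left h0 hVW.le
    have h2 : V1 * W * (T₀ + T - 1) = (V1 * W) * (D / (V1 * W)) + V1 * W * T := by
      rw [hT₀]; ring
    have h3 : V1 * (n₀ + W * t) = V1 * n₀ + V1 * W * t := by ring
    rw [h3]
    linarith
  have hZ0 : 0 ≤ Z := by
    have : (0 : ℤ) ≤ 2 * W * V1 * (T : ℤ) := by positivity
    exact this.trans (hlen V1 hV1)
  -- the interval
  have hin : ∀ t, T₀ ≤ t → t < T₀ + T → 0 < n₀ + W * t ∧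
      ∀ V ∈ 𝒱, X < V * (n₀ + W * t) ∧ V * (n₀ + W * t) ≤ X + Z := by
    intro t ht1 ht2
    have h1 := hlow t ht1
    have h2 := hhigh t ht2
    have h3 : 0 < V1 * (n₀ + W * t) := by linarith
    have h4 : 0 < n₀ + W * t := pos_of_mul_pos_right h3 hV10.le
    refine ⟨h4, fun V hV => ?_⟩
    have h5 : V1 ≤ V := hmin V hV
    have h6 : V1 * (n₀ + W * t) ≤ V * (n₀ + W * t) := mul_le_mul_of_nonneg_right h5 h4.le
    have h8 : 2 * (V1 * W * T) ≤ Z := by
      have := hlen V1 hV1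
      calc 2 * (V1 * W * T) = 2 * W * V1 * T := by ring
        _ ≤ Z := this
    have h10 : 2 * (V1 * (n₀ + W * t)) ≤ 5 * X := by linarith
    have h11 : 12 * ((V - V1) * (n₀ + W * t)) ≤ 5 * Z := by
      have g1 : X * (12 * ((V - V1) * (n₀ + W * t))) ≤ X * (5 * Z) := by
        calc X * (12 * ((V - V1) * (n₀ + W * t)))
            = 2 * ((6 * X * (V - V1)) * (n₀ + W * t)) := by ring
          _ ≤ 2 * ((Z * V1) * (n₀ + W * t)) := by
            have := mul_le_mul_of_nonneg_right (hclose V1 hV1 V hV) h4.le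
            linarith
          _ = Z * (2 * (V1 * (n₀ + W * t))) := by ring
          _ ≤ Z * (5 * X) := mul_le_mul_of_nonneg_left h10 hZ0
          _ = X * (5 * Z) := by ring
      exact le_of_mul_le_mul_left g1 hX
    have h12 : V * (n₀ + W * t) = V1 * (n₀ + W * t) + (V - V1) * (n₀ + W * t) := by ring
    constructor <;> linarith
  -- inverses
  have hinv : ∀ (p : ℕ) (a : ℤ), p.Prime → ¬ (p : ℤ) ∣ a → ∃ a' : ℤ, (p : ℤ) ∣ a * a' - 1 := by
    intro p a hp ha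
    have h1 : IsCoprime a (p : ℤ) :=
      ((Nat.prime_iff_prime_int.1 hp).coprime_iff_not_dvd.2 ha).symm
    obtain ⟨u, v, huv⟩ := h1
    exact ⟨u, ⟨-v, by linear_combination huv⟩⟩
  choose! inv hinv using hinv
  -- the sieve
  set S : ℕ → Finset ℤ := fun p => if p ∣ W ∨ Y < p then ∅ else
    insert (-n₀ * inv p W) ((𝒱 ×ˢ B p).image fun x => (x.2 * inv p x.1 - n₀) * inv p W) with hS
  have hScard : ∀ l : ℕ, l.Prime → (S l).card ≤ K := by
    intro l hl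
    simp only [hS]
    split_ifs with h
    · simp
    · refine (card_insert_le _ _).trans ?_
      have h1 := card_image_le (s := 𝒱 ×ˢ B l) (f := fun x => (x.2 * inv l x.1 - n₀) * inv l W)
      rw [card_product] at h1
      have h2 := Nat.mul_le_mul_left 𝒱.card (hB l hl)
      omega
  have hSsm : ∀ l : ℕ, l.Prime → l ≤ 2 * K → S l = ∅ := by
    intro l hl hlK
    simp only [hS]
    rw [if_pos (Or.inl (hWp l hl hlK))]
  have hs := hSV Y hY S hScard hSsm T₀ T hT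
  set Gd : Set ℤ := {t : ℤ | T₀ ≤ t ∧ t < T₀ + T ∧
    ∀ l : ℕ, l.Prime → l ≤ Y → ∀ s ∈ S l, ¬ (l : ℤ) ∣ t - s} with hG
  -- the values are rough and avoid the classes
  have hwr : ∀ t ∈ Gd, Rough Y (n₀ + W * t) := by
    intro t ht p hp hpY hd
    have hpr := Nat.prime_iff_prime_int.1 hp
    by_cases hpW : p ∣ W
    · apply (hn₀ p hp hpW).1
      exact (dvd_add_left ((Int.natCast_dvd_natCast.2 hpW).mul_right t)).1 hd
    · have hpW' : ¬ (p : ℤ) ∣ (W : ℤ) := fun h => hpW (Int.natCast_dvd_natCast.1 h)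
      refine ht.2.2 p hp hpY (-n₀ * inv p W) ?_ ?_
      · simp only [hS]
        rw [if_neg (by push Not; exact ⟨hpW, hpY⟩)]
        exact mem_insert_self _ _
      · have h1 : (p : ℤ) ∣ W * (t - -n₀ * inv p W) := by
          have e : (W : ℤ) * (t - -n₀ * inv p W) = (n₀ + W * t) + n₀ * (W * inv p W - 1) := by ring
          rw [e]
          exact dvd_add hd ((hinv p W hp hpW').mul_left _)
        exact (hpr.dvd_or_dvd h1).resolve_left hpW'
  have hbd : ∀ t ∈ Gd, ∀ V ∈ 𝒱, ∀ p : ℕ, p.Prime → p ≤ Y → ∀ e ∈ B p,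
      ¬ (p : ℤ) ∣ V * (n₀ + W * t) - e := by
    intro t ht V hV p hp hpY e he hd
    have hpr := Nat.prime_iff_prime_int.1 hp
    by_cases hpW : p ∣ W
    · apply (hn₀ p hp hpW).2 e he
      have hpW' : (p : ℤ) ∣ (W : ℤ) := Int.natCast_dvd_natCast.2 hpW
      have h1 : n₀ - e = (V * (n₀ + W * t) - e) - (V - 1) * n₀ - W * (V * t) := by ring
      rw [h1]
      exact dvd_sub (dvd_sub hd ((hpW'.trans (h𝒱 V hV).2.2).mul_right _)) (hpW'.mul_right _)
    · have hpW' : ¬ (p : ℤ) ∣ (W : ℤ) := fun h => hpW (Int.natCast_dvd_natCast.1 h)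
      have hpV : ¬ (p : ℤ) ∣ V := (h𝒱 V hV).2.1 p hp hpY
      refine ht.2.2 p hp hpY ((e * inv p V - n₀) * inv p W) ?_ ?_
      · simp only [hS]
        rw [if_neg (by push Not; exact ⟨hpW, hpY⟩)]
        apply mem_insert_of_mem
        exact mem_image.2 ⟨(V, e), mem_product.2 ⟨hV, he⟩, rfl⟩
      · have h1 : (p : ℤ) ∣ V * (n₀ + W * t - e * inv p V) := by
          have e1 : V * (n₀ + W * t - e * inv p V) =
              (V * (n₀ + W * t) - e) - e * (V * inv p V - 1) := by ring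
          rw [e1]
          exact dvd_sub hd ((hinv p V hp hpV).mul_left _)
        have h2 : (p : ℤ) ∣ n₀ + W * t - e * inv p V := (hpr.dvd_or_dvd h1).resolve_left hpV
        have h3 : (p : ℤ) ∣ W * (t - (e * inv p V - n₀) * inv p W) := by
          have e2 : (W : ℤ) * (t - (e * inv p V - n₀) * inv p W) =
              (n₀ + W * t - e * inv p V) - (e * inv p V - n₀) * (W * inv p W - 1) := by ring
          rw [e2]
          exact dvd_sub h2 ((hinv p W hp hpW').mul_left _)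
        exact (hpr.dvd_or_dvd h3).resolve_left hpW'
  -- the choice of `V`
  choose! U hU1 hU2 using himage
  have hmap : ∀ t ∈ Gd, (U (c - F (n₀ + W * t)), U (c - F (n₀ + W * t)) * (n₀ + W * t)) ∈
      (𝒱 : Set ℤ) ×ˢ ValG B F c W n₀ Y X Z := by
    intro t ht
    obtain ⟨h1, h2⟩ := hin t ht.1 ht.2.1
    have h3 := hU1 (c - F (n₀ + W * t))
    refine ⟨h3, (h2 _ h3).1, (h2 _ h3).2, ?_, rough_mul (h𝒱 _ h3).2.1 (hwr t ht),
      hbd t ht _ h3, ?_⟩
    · obtain ⟨v, hv⟩ := (h𝒱 _ h3).2.2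
      refine ⟨v * n₀ + U (c - F (n₀ + W * t)) * t, ?_⟩
      linear_combination n₀ * hv
    · rw [hF _ _ (h𝒱 _ h3).1.ne' h1.ne', hU2, sub_add_cancel]
  have hinj : Set.InjOn (fun t => (U (c - F (n₀ + W * t)), U (c - F (n₀ + W * t)) * (n₀ + W * t)))
      Gd := by
    intro t ht t' ht' heq
    simp only [Prod.mk.injEq] at heq
    obtain ⟨h1, h2⟩ := heq
    rw [h1] at h2
    have h3 := hU1 (c - F (n₀ + W * t'))
    have h4 := (h𝒱 _ h3).1
    have h5 : n₀ + W * t = n₀ + W * t' := mul_left_cancel₀ h4.ne' h2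
    exact mul_left_cancel₀ hWz.ne' (add_left_cancel h5)
  have hfin : ((𝒱 : Set ℤ) ×ˢ ValG B F c W n₀ Y X Z).Finite :=
    (Finset.finite_toSet 𝒱).prod (valG_finite _ _ _ _ _ _ _ _)
  have hle : Gd.ncard ≤ 𝒱.card * (ValG B F c W n₀ Y X Z).ncard := by
    have := Set.ncard_le_ncard_of_injOn _ hmap hinj hfin
    rwa [Set.ncard_prod, Set.ncard_coe_finset] at this
  exact hs.trans (Nat.mul_le_mul_left _ hle)

end Pool.Agent.H72.CG
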