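import Mathlib
import Pool.Agent.H72.CG.Count
import Pool.Graph.R_pool_sql_team_seeded_9f66d723.W5h75.SQ.Long

/-!
The values of additive functions with values in a finite abelian group at one member of a rough tuple,
in short intervals: the theorem in terms of the sieving level `Y`.
-/

set_option autoImplicit false

open Finset

namespace Pool.Agent.H72.CG

open Pool.Agent.H661R3.OP (Rough)
open Pool.Agent.W5h75.SP (SVK exists_SVK ex_one rough_mul rough_prime rough_ne_zero)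
open Pool.Agent.W5h75.SQ (exists_W)

theorem one_add_pow_le (δ : ℝ) (h0 : 0 ≤ δ) (h1 : δ ≤ 1) : ∀ n : ℕ, (1 + δ) ^ n ≤ 1 + 2 ^ n * δ := by
  intro n
  have key : ∀ n : ℕ, (1 + δ) ^ n ≤ 1 + (2 ^ n - 1) * δ := by
    intro n
    induction n with
    | zero => simp
    | succ n ih =>
      have h2 : (1 : ℝ) ≤ 2 ^ n := one_le_pow₀ (by norm_num)
      have h3 : (0 : ℝ) ≤ (2 ^ n - 1) * δ := mul_nonneg (by linarith) h0
      calc (1 + δ) ^ (n + 1) = (1 + δ) ^ n * (1 + δ) := pow_succ _ _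
        _ ≤ (1 + (2 ^ n - 1) * δ) * (1 + δ) := mul_le_mul_of_nonneg_right ih (by linarith)
        _ = 1 + (2 ^ n - 1) * δ + δ + (2 ^ n - 1) * δ * δ := by ring
        _ ≤ 1 + (2 ^ n - 1) * δ + δ + (2 ^ n - 1) * δ * 1 := by
          have := mul_le_mul_of_nonneg_left h1 h3
          linarith
        _ = 1 + (2 ^ (n + 1) - 1) * δ := by rw [pow_succ]; ring
  refine (key n).trans ?_
  nlinarith

theorem main (ι : Type) [Fintype ι] (a b : ι → ℤ) (ha : ∀ i, 0 < a i) (o : ι) (m : ℕ) (hm : 0 < m)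
    (r₀ : ℤ) (hadm : ∀ p : ℕ, p.Prime → ∃ n : ℤ, ∀ i, ¬ (p : ℤ) ∣ a i * (r₀ + m * n) + b i) (r : ℕ) :
    ∃ q D e : ℕ, 0 < q ∧ 0 < D ∧ ∀ (G : Type) [AddCommGroup G] [Fintype G],
      (Fintype.card G ≤ r + 1 ∨ (∀ x : G, x + x = 0) ∧ Fintype.card G ≤ 2 ^ r) →
      ∀ F : ℤ → G, AddG F → ∀ (Y : ℕ) (X Z : ℤ), 2 ≤ Y → |b o| < X → 0 < Z → Z ≤ X →
      (D : ℝ) * (Y : ℝ) ^ e * (X : ℝ) ^ r ≤ (Z : ℝ) ^ (r + 1) →
      (∀ H : AddSubgroup G, H ≠ ⊤ → ∃ p : ℕ, p.Prime ∧ Y < p ∧ p ≤ Y ^ 3 ∧ (q : ℤ) ∣ (p : ℤ) - 1 ∧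
        F p ∉ H) → ∀ c : G,
      (Z : ℝ) ^ (r + 1) ≤ (D : ℝ) * (Y : ℝ) ^ e * (X : ℝ) ^ r *
        ({n : ℤ | X < n ∧ n ≤ X + Z ∧ (m : ℤ) ∣ n - r₀ ∧ (∀ i, Rough Y (a i * n + b i)) ∧
          F (a o * n + b o) = c}.ncard : ℝ) := by
  classical
  set K : ℕ := 2 ^ r * Fintype.card ι + 1 with hK
  obtain ⟨C, hSV⟩ := exists_SVK K
  obtain ⟨W, n₀, hW, hWp, hWa, hmW, hn₀r, hn₀, -⟩ := exists_W ι a b ha K m hm r₀ hadm
  have hWz : (0 : ℤ) < W := by exact_mod_cast hW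
  have hao := ha o
  set Q : ℤ := a o * W with hQ
  have hQ0 : 0 < Q := mul_pos hao hWz
  have hQp : ∀ p : ℕ, p.Prime → p ≤ 2 * K → (p : ℤ) ∣ Q := fun p hp hpK =>
    (Int.natCast_dvd_natCast.2 (hWp p hp hpK)).mul_left _
  have hqQ : ((Q.toNat : ℕ) : ℤ) = Q := Int.toNat_of_nonneg hQ0.le
  have hq0 : 0 < Q.toNat := by omega
  refine ⟨Q.toNat, 4 * W * 2 ^ r * (15 * 2 ^ r * Q.toNat) ^ r, C + (C + 3) * r, hq0,
    by positivity, ?_⟩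
  intro G _ _ hGr F hF Y X Z hY hb hZ hZX hsize hprime c
  rw [hqQ] at hprime
  have hX : 0 < X := (abs_nonneg _).trans_lt hb
  -- real quantities
  have hXr : (0 : ℝ) < X := by exact_mod_cast hX
  have hZr : (0 : ℝ) < Z := by exact_mod_cast hZ
  have hZXr : (Z : ℝ) ≤ X := by exact_mod_cast hZX
  have hQr : (1 : ℝ) ≤ Q := by exact_mod_cast hQ0
  have hWr : (1 : ℝ) ≤ W := by exact_mod_cast hW
  have hYr : (2 : ℝ) ≤ Y := by exact_mod_cast hY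
  have hYC : (1 : ℝ) ≤ (Y : ℝ) ^ C := one_le_pow₀ (by linarith)
  have h2r : (1 : ℝ) ≤ (2 : ℝ) ^ r := one_le_pow₀ (by norm_num)
  have hXZ : (1 : ℝ) ≤ X / Z := by rw [le_div_iff₀ hZr]; linarith
  -- the number `A`
  set A : ℤ := 12 * 2 ^ r * X * (Y ^ C : ℕ) / Z + 1 with hA
  have hA1 : 12 * 2 ^ r * X * (Y ^ C : ℕ) < Z * A := by
    have h1 := Int.lt_mul_ediv_self_add (x := 12 * 2 ^ r * X * (Y ^ C : ℕ)) hZ
    rw [hA, mul_add, mul_one]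
    exact h1
  have hA2 : Z * A ≤ 12 * 2 ^ r * X * (Y ^ C : ℕ) + Z := by
    have h1 := Int.mul_ediv_self_le (x := 12 * 2 ^ r * X * (Y ^ C : ℕ)) hZ.ne'
    rw [hA, mul_add, mul_one]
    linarith
  have hA0 : 0 ≤ A := by
    have : 0 < Z * A := lt_of_le_of_lt (by positivity) hA1
    exact (pos_of_mul_pos_right this hZ.le).le
  have hA1r : 12 * 2 ^ r * (X : ℝ) * (Y : ℝ) ^ C < Z * A := by exact_mod_cast hA1
  have hA2r : (Z : ℝ) * A ≤ 12 * 2 ^ r * (X : ℝ) * (Y : ℝ) ^ C + Z := by exact_mod_cast hA2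
  have hA3 : (A : ℝ) ≤ 13 * 2 ^ r * (Y : ℝ) ^ C * (X / Z) := by
    have h1 : (A : ℝ) ≤ (12 * 2 ^ r * (X : ℝ) * (Y : ℝ) ^ C + Z) / Z := by
      rw [le_div_iff₀ hZr]; linarith
    have h2 : (12 * 2 ^ r * (X : ℝ) * (Y : ℝ) ^ C + Z) / Z =
        12 * 2 ^ r * (Y : ℝ) ^ C * (X / Z) + 1 := by
      field_simp
    have h3 : (1 : ℝ) ≤ 2 ^ r * (Y : ℝ) ^ C * (X / Z) := by
      have := one_le_mul_of_one_le_of_one_le (one_le_mul_of_one_le_of_one_le h2r hYC) hXZ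
      exact this
    rw [h2] at h1
    linarith
  -- the number `B`
  set B : ℤ := (Y ^ 3 : ℕ) * (1 + Q * (A + (Y ^ C : ℕ))) with hB
  set β : ℝ := 15 * 2 ^ r * Q * (Y : ℝ) ^ (C + 3) * (X / Z) with hβ
  have hBβ : (B : ℝ) ≤ β := by
    have h1 : (1 : ℝ) + Q * (A + (Y : ℝ) ^ C) ≤ 15 * 2 ^ r * Q * (Y : ℝ) ^ C * (X / Z) := by
      have g1 : (1 : ℝ) ≤ 2 ^ r * (Y : ℝ) ^ C * (X / Z) := by
        have := one_le_mul_of_one_le_of_one_le (one_le_mul_of_one_le_of_one_le h2r hYC) hXZ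
        exact this
      have g2 : (Y : ℝ) ^ C ≤ 2 ^ r * (Y : ℝ) ^ C * (X / Z) := by
        have h5 : (1 : ℝ) ≤ 2 ^ r * (X / Z) := one_le_mul_of_one_le_of_one_le h2r hXZ
        calc (Y : ℝ) ^ C = (Y : ℝ) ^ C * 1 := (mul_one _).symm
          _ ≤ (Y : ℝ) ^ C * (2 ^ r * (X / Z)) := mul_le_mul_of_nonneg_left h5 (by positivity)
          _ = _ := by ring
      have g3 : (1 : ℝ) + Q * (A + (Y : ℝ) ^ C) ≤ Q * (1 + (A + (Y : ℝ) ^ C)) := by nlinarith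
      have g4 : 1 + (A + (Y : ℝ) ^ C) ≤ 15 * (2 ^ r * (Y : ℝ) ^ C * (X / Z)) := by linarith
      calc (1 : ℝ) + Q * (A + (Y : ℝ) ^ C) ≤ Q * (1 + (A + (Y : ℝ) ^ C)) := g3
        _ ≤ Q * (15 * (2 ^ r * (Y : ℝ) ^ C * (X / Z))) :=
          mul_le_mul_of_nonneg_left g4 (by linarith)
        _ = _ := by ring
    rw [hB, hβ]
    push_cast
    calc (Y : ℝ) ^ 3 * (1 + Q * (A + (Y : ℝ) ^ C)) ≤
        (Y : ℝ) ^ 3 * (15 * 2 ^ r * Q * (Y : ℝ) ^ C * (X / Z)) :=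
          mul_le_mul_of_nonneg_left h1 (by positivity)
      _ = _ := by rw [pow_add]; ring
  have hβ0 : 0 < β := by rw [hβ]; positivity
  have hB0 : 0 ≤ B := by rw [hB]; positivity
  have hB0r : (0 : ℝ) ≤ B := by exact_mod_cast hB0
  -- the number `δ`
  set δ : ℝ := Z / (6 * 2 ^ r * X) with hδ
  have h6 : (0 : ℝ) < 6 * 2 ^ r * X := by positivity
  have hδ0 : 0 ≤ δ := by rw [hδ]; positivity
  have hδ1 : δ ≤ 1 := by
    rw [hδ, div_le_one h6]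
    nlinarith
  have hδX : 6 * X * (2 ^ r * δ) = Z := by
    rw [hδ]; field_simp
  have hAδ : 2 * ((Y ^ C : ℕ) : ℝ) ≤ δ * A := by
    have h1 : δ * A = (Z * A) / (6 * 2 ^ r * X) := by rw [hδ]; ring
    rw [h1, le_div_iff₀ h6]
    push_cast
    linarith
  obtain ⟨𝒱, h0, h1, h2, h3, h4, h5⟩ := family hSV (by omega) Q hQ0 hQp Y hY F hF hprime A B hA0
    le_rfl δ hδ0 hAδ r
  have hfull : 𝒱.image F = univ := by
    have hc : Fintype.card G ≤ (𝒱.image F).card := by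
      rcases hGr with hGr | ⟨h2x, hGr⟩
      · omega
      · have := (h5 h2x).1
        omega
    exact (card_eq_iff_eq_univ _).1 (le_antisymm (card_le_univ _) hc)
  have himage : ∀ g : G, ∃ V ∈ 𝒱, F V = g := by
    intro g
    have : g ∈ 𝒱.image F := by rw [hfull]; exact mem_univ g
    exact mem_image.1 this
  have hclose : ∀ V ∈ 𝒱, ∀ V' ∈ 𝒱, 6 * X * (V' - V) ≤ Z * V := by
    intro V hV V' hV'
    have g1 := h3 V hV V' hV'
    have g2 := one_add_pow_le δ hδ0 hδ1 r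
    have hV0 : (0 : ℝ) < V := by exact_mod_cast (h2 V hV).1
    have g3 : (V' : ℝ) ≤ V * (1 + 2 ^ r * δ) := g1.trans (mul_le_mul_of_nonneg_left g2 hV0.le)
    have g4 : 6 * (X : ℝ) * (V' - V) ≤ Z * V := by
      calc 6 * (X : ℝ) * (V' - V) ≤ 6 * X * (V * (2 ^ r * δ)) := by
            apply mul_le_mul_of_nonneg_left _ (by positivity)
            linarith
        _ = (6 * X * (2 ^ r * δ)) * V := by ring
        _ = Z * V := by rw [hδX]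
    exact_mod_cast g4
  -- the number `T`
  have hβr : 0 < β ^ r := pow_pos hβ0 r
  have hden : (0 : ℝ) < 2 * W * β ^ r := by positivity
  set T : ℕ := ⌊(Z : ℝ) / (2 * W * β ^ r)⌋₊ with hT
  have hDY : ((4 * W * 2 ^ r * (15 * 2 ^ r * Q.toNat) ^ r : ℕ) : ℝ) * (Y : ℝ) ^ (C + (C + 3) * r) *
      (X : ℝ) ^ r = (4 * W * 2 ^ r * (Y : ℝ) ^ C * β ^ r) * (Z : ℝ) ^ r := by
    have e1 : β * Z = 15 * 2 ^ r * Q * (Y : ℝ) ^ (C + 3) * X := by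
      rw [hβ]; field_simp
    have e2 : β ^ r * (Z : ℝ) ^ r = (15 * 2 ^ r * Q * (Y : ℝ) ^ (C + 3) * X) ^ r := by
      rw [← mul_pow, e1]
    have e3 : ((Q.toNat : ℕ) : ℝ) = (Q : ℝ) := by
      have h := congrArg (fun z : ℤ => (z : ℝ)) hqQ
      simpa only [Int.cast_natCast] using h
    have e4 : (4 * W * 2 ^ r * (Y : ℝ) ^ C * β ^ r) * (Z : ℝ) ^ r =
        4 * W * 2 ^ r * (Y : ℝ) ^ C * (β ^ r * (Z : ℝ) ^ r) := by ring
    rw [e4, e2]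
    push_cast
    rw [e3, pow_add, pow_mul, mul_pow, mul_pow (15 * 2 ^ r * (Q : ℝ) * (Y : ℝ) ^ (C + 3)),
      mul_pow (15 * 2 ^ r * (Q : ℝ)) ((Y : ℝ) ^ (C + 3)), mul_pow (15 * (2 : ℝ) ^ r) (Q : ℝ)]
    ring
  have hZrr : (0 : ℝ) < (Z : ℝ) ^ r := pow_pos hZr r
  have hbig : 4 * W * 2 ^ r * (Y : ℝ) ^ C * β ^ r ≤ Z := by
    rw [hDY, pow_succ, mul_comm ((Z : ℝ) ^ r) (Z : ℝ)] at hsize
    exact le_of_mul_le_mul_right hsize hZrr
  have hq1 : 2 * (Y : ℝ) ^ C ≤ (Z : ℝ) / (2 * W * β ^ r) := by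
    rw [le_div_iff₀ hden]
    have g1 : (2 * (Y : ℝ) ^ C) * (2 * W * β ^ r) * 1 ≤ (2 * (Y : ℝ) ^ C) * (2 * W * β ^ r) * 2 ^ r :=
      mul_le_mul_of_nonneg_left h2r (by positivity)
    calc (2 * (Y : ℝ) ^ C) * (2 * W * β ^ r) = (2 * (Y : ℝ) ^ C) * (2 * W * β ^ r) * 1 := by ring
      _ ≤ _ := g1
      _ = 4 * W * 2 ^ r * (Y : ℝ) ^ C * β ^ r := by ring
      _ ≤ Z := hbig
  have hTY : Y ^ C ≤ T := by
    rw [hT]
    apply Nat.le_floor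
    push_cast
    linarith
  have hTlow : (Z : ℝ) / (2 * W * β ^ r) ≤ 2 * T := by
    have g1 : (Z : ℝ) / (2 * W * β ^ r) < T + 1 := Nat.lt_floor_add_one _
    linarith
  have hThigh : (T : ℝ) ≤ (Z : ℝ) / (2 * W * β ^ r) := Nat.floor_le (by positivity)
  have hlen : ∀ V ∈ 𝒱, 2 * W * V * T ≤ Z := by
    intro V hV
    obtain ⟨g1, -, -, g2⟩ := h2 V hV
    have g3 : (V : ℝ) ≤ β ^ r := by
      calc (V : ℝ) ≤ ((B ^ r : ℤ) : ℝ) := by exact_mod_cast g2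
        _ = (B : ℝ) ^ r := by push_cast; rfl
        _ ≤ β ^ r := pow_le_pow_left₀ hB0r hBβ r
    have g4 : (2 * W * V * T : ℝ) ≤ Z := by
      calc (2 * W * V * T : ℝ) = (2 * W * T) * V := by ring
        _ ≤ (2 * W * T) * β ^ r := mul_le_mul_of_nonneg_left g3 (by positivity)
        _ = T * (2 * W * β ^ r) := by ring
        _ ≤ Z := by rwa [le_div_iff₀ hden] at hThigh
    exact_mod_cast g4
  have hcount := count a b o W n₀ K C hSV hW hWp hWa Y hY hao hn₀ F hF X Z hZX hX hb 𝒱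
    ((Nat.mul_le_mul_right _ h1).trans (by omega)) (fun V hV => ⟨(h2 V hV).1, (h2 V hV).2.1,
      (h2 V hV).2.2.1⟩) hclose himage T hTY hlen c
  have hsub : Val a b o F c W n₀ Y X Z ⊆ {n : ℤ | X < n ∧ n ≤ X + Z ∧ (m : ℤ) ∣ n - r₀ ∧
      (∀ i, Rough Y (a i * n + b i)) ∧ F (a o * n + b o) = c} := by
    rintro n ⟨g1, g2, g3, g4, g5⟩
    refine ⟨g1, g2, ?_, g4, g5⟩
    have e : n - r₀ = (n - n₀) + (n₀ - r₀) := by ring
    rw [e]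
    exact dvd_add ((Int.natCast_dvd_natCast.2 hmW).trans g3) hn₀r
  have hfin : {n : ℤ | X < n ∧ n ≤ X + Z ∧ (m : ℤ) ∣ n - r₀ ∧
      (∀ i, Rough Y (a i * n + b i)) ∧ F (a o * n + b o) = c}.Finite :=
    (Set.finite_Ioc X (X + Z)).subset fun _ hn => ⟨hn.1, hn.2.1⟩
  have hN := Set.ncard_le_ncard hsub hfin
  set N : ℕ := {n : ℤ | X < n ∧ n ≤ X + Z ∧ (m : ℤ) ∣ n - r₀ ∧
      (∀ i, Rough Y (a i * n + b i)) ∧ F (a o * n + b o) = c}.ncard with hNdef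
  have hTN : T ≤ Y ^ C * (2 ^ r * N) :=
    hcount.trans (Nat.mul_le_mul_left _ (Nat.mul_le_mul h1 hN))
  have hTNr : (T : ℝ) ≤ (Y : ℝ) ^ C * (2 ^ r * N) := by exact_mod_cast hTN
  have hfinal : (Z : ℝ) ≤ (4 * W * 2 ^ r * (Y : ℝ) ^ C * β ^ r) * N := by
    rw [div_le_iff₀ hden] at hTlow
    calc (Z : ℝ) ≤ 2 * T * (2 * W * β ^ r) := hTlow
      _ ≤ 2 * ((Y : ℝ) ^ C * (2 ^ r * N)) * (2 * W * β ^ r) := by
        apply mul_le_mul_of_nonneg_right _ hden.le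
        linarith
      _ = _ := by ring
  rw [hDY, pow_succ]
  calc (Z : ℝ) ^ r * Z ≤ (Z : ℝ) ^ r * ((4 * W * 2 ^ r * (Y : ℝ) ^ C * β ^ r) * N) :=
        mul_le_mul_of_nonneg_left hfinal hZrr.le
    _ = _ := by ring

end Pool.Agent.H72.CG
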