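import Mathlib
import Pool.Agent.H72.CG.Pair

/-!
The families of close rough numbers of `Pool.Agent.H72.CG.Pair`, under a weaker condition on the labels:
two rough numbers in the same residue class have labels which differ modulo a given proper subgroup.
-/

set_option autoImplicit false

open Finset

namespace Pool.Agent.H72.CG

open Pool.Agent.H661R3.OP (Rough)
open Pool.Agent.W5h75.SP (SVK ex_one rough_mul rough_prime rough_ne_zero)

theorem exists_pairX {G : Type} [AddCommGroup G] {K C : ℕ} (hSV : SVK K C) (hK : 1 ≤ K) (Q : ℤ)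
    (hQ0 : 0 < Q) (hQ : ∀ p : ℕ, p.Prime → p ≤ 2 * K → (p : ℤ) ∣ Q) (Y : ℕ) (hY : 2 ≤ Y)
    (F : ℤ → G) (hF : AddG F) (H : AddSubgroup G) (u u' c : ℤ) (hu' : 0 < u') (huu : u' < u)
    (hc : 0 < c) (hru : Rough Y u) (hru' : Rough Y u') (hrc : Rough Y c) (hq1 : Q ∣ c * u - 1)
    (hq2 : Q ∣ c * u' - 1) (huH : F u - F u' ∉ H) (A : ℤ) (hA : 0 ≤ A) :
    ∃ v v' : ℤ, A ≤ v ∧ v < v' ∧ v' - v ≤ 2 * (Y ^ C : ℕ) ∧
      1 + Q * v' ≤ c * u * (1 + Q * (A + (Y ^ C : ℕ))) ∧ Rough Y (1 + Q * v) ∧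
      Rough Y (1 + Q * v') ∧ F (1 + Q * v') - F (1 + Q * v) ∉ H := by
  by_contra hcon
  have h : ∀ v v' : ℤ, A ≤ v → v < v' → v' - v ≤ 2 * (Y ^ C : ℕ) →
      1 + Q * v' ≤ c * u * (1 + Q * (A + (Y ^ C : ℕ))) → Rough Y (1 + Q * v) →
      Rough Y (1 + Q * v') → F (1 + Q * v') - F (1 + Q * v) ∈ H := by
    intro v v' h1 h2 h3 h4 h5 h6
    by_contra h7
    exact hcon ⟨v, v', h1, h2, h3, h4, h5, h6, h7⟩
  have hM : (0 : ℤ) < (Y ^ C : ℕ) := by positivity
  obtain ⟨v₀, hv1, hv2, hv3⟩ := ex_one hSV hK Q hQ Y hY A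
  have hv0 : 0 ≤ v₀ := hA.trans hv1
  obtain ⟨w, hw⟩ := hq1
  obtain ⟨w', hw'⟩ := hq2
  have hcu' : 1 ≤ c * u' := Int.add_one_le_iff.2 (mul_pos hc hu')
  have hcu : c * u' ≤ c * u := mul_le_mul_of_nonneg_left huu.le hc.le
  have hw'0 : 0 ≤ w' := by
    have : 0 ≤ Q * w' := by rw [← hw']; linarith
    exact nonneg_of_mul_nonneg_right this hQ0
  -- the first member of the chain
  obtain ⟨v₁, hv₁⟩ : ∃ v₁ : ℤ, v₁ = w' + c * u' * v₀ := ⟨_, rfl⟩
  have e1 : 1 + Q * v₁ = (c * u') * (1 + Q * v₀) := by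
    rw [hv₁]
    linear_combination -hw'
  obtain ⟨v₂, hv₂⟩ : ∃ v₂ : ℤ, v₂ = w + c * u * v₀ := ⟨_, rfl⟩
  have e2 : 1 + Q * v₂ = (c * u) * (1 + Q * v₀) := by
    rw [hv₂]
    linear_combination -hw
  have hAv₁ : A ≤ v₁ := by
    rw [hv₁]
    nlinarith
  have hr1 : Rough Y (1 + Q * v₁) := by
    rw [e1]; exact rough_mul (rough_mul hrc hru') hv3
  have hr2 : Rough Y (1 + Q * v₂) := by
    rw [e2]; exact rough_mul (rough_mul hrc hru) hv3
  have key : ∀ n : ℕ, ∀ v : ℤ, v₁ ≤ v → v - v₁ ≤ n → Rough Y (1 + Q * v) →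
      1 + Q * v ≤ c * u * (1 + Q * (A + (Y ^ C : ℕ))) → F (1 + Q * v) - F (1 + Q * v₁) ∈ H := by
    intro n
    induction n with
    | zero =>
      intro v h1 h2 _ _
      have : v = v₁ := by
        push_cast at h2
        linarith
      rw [this, sub_self]
      exact H.zero_mem
    | succ n ih =>
      intro v h1 h2 h3 h4
      rcases h1.eq_or_lt with h5 | h5
      · rw [← h5, sub_self]
        exact H.zero_mem
      by_cases h6 : v - v₁ ≤ 2 * (Y ^ C : ℕ)
      · exact h v₁ v hAv₁ h5 h6 h4 hr1 h3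
      · push Not at h6
        obtain ⟨v3, g1, g2, g3⟩ := ex_one hSV hK Q hQ Y hY (v - 2 * (Y ^ C : ℕ))
        have g4 : v₁ ≤ v3 := by linarith
        have g5 : v3 < v := by linarith
        have g6 : 1 + Q * v3 ≤ c * u * (1 + Q * (A + (Y ^ C : ℕ))) := by
          have : Q * v3 ≤ Q * v := mul_le_mul_of_nonneg_left g5.le hQ0.le
          linarith
        have e1 := ih v3 g4 (by push_cast at h2; linarith [Int.add_one_le_iff.2 g5]) g3 g6
        have e2 := h v3 v (hAv₁.trans g4) g5 (by linarith) h4 g3 h3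
        have e3 := H.add_mem e2 e1
        rwa [sub_add_sub_cancel] at e3
  have hU0 : 1 + Q * v₀ ≠ 0 := rough_ne_zero hY hv3
  have hu0 : 0 < u := hu'.trans huu
  have hpos : 0 < 1 + Q * v₀ := by
    have : 0 ≤ Q * v₀ := mul_nonneg hQ0.le hv0
    linarith
  have hge : v₁ ≤ v₂ := by
    have h1 : 1 + Q * v₁ ≤ 1 + Q * v₂ := by
      rw [e1, e2]
      exact mul_le_mul_of_nonneg_right hcu hpos.le
    have h2 : Q * v₁ ≤ Q * v₂ := by linarith
    exact le_of_mul_le_mul_left h2 hQ0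
  have hb : 1 + Q * v₂ ≤ c * u * (1 + Q * (A + (Y ^ C : ℕ))) := by
    rw [e2]
    apply mul_le_mul_of_nonneg_left _ (by linarith)
    have : Q * v₀ ≤ Q * (A + (Y ^ C : ℕ)) := mul_le_mul_of_nonneg_left hv2.le hQ0.le
    linarith
  have hfin := key (v₂ - v₁).toNat v₂ hge (by omega) hr2 hb
  rw [e1, e2, hF _ _ (mul_pos hc hu0).ne' hU0, hF _ _ (mul_pos hc hu').ne' hU0,
    hF _ _ hc.ne' hu0.ne', hF _ _ hc.ne' hu'.ne'] at hfin
  apply huH
  have e : F c + F u + F (1 + Q * v₀) - (F c + F u' + F (1 + Q * v₀)) = F u - F u' := by abel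
  rwa [e] at hfin

theorem familyX (k₀ : ℕ) {G : Type} [AddCommGroup G] [Fintype G] [DecidableEq G] {K C : ℕ}
    (hSV : SVK K C)
    (hK : 1 ≤ K) (Q : ℤ)
    (hQ0 : 0 < Q) (hQ : ∀ p : ℕ, p.Prime → p ≤ 2 * K → (p : ℤ) ∣ Q) (Y : ℕ) (hY : 2 ≤ Y)
    (F : ℤ → G) (hF : AddG F)
    (hpair : ∀ H : AddSubgroup G, H ≠ ⊤ → ∃ u u' c : ℤ, 0 < u' ∧ u' < u ∧ 0 < c ∧
      c * u ≤ (Y ^ k₀ : ℕ) ∧ Rough Y u ∧ Rough Y u' ∧ Rough Y c ∧ Q ∣ c * u - 1 ∧ Q ∣ c * u' - 1 ∧
      F u - F u' ∉ H) (A B : ℤ) (hA : 0 ≤ A) (hB : (Y ^ k₀ : ℕ) * (1 + Q * (A + (Y ^ C : ℕ))) ≤ B)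
    (δ : ℝ) (hδ : 0 ≤ δ) (hAδ : 2 * ((Y ^ C : ℕ) : ℝ) ≤ δ * A) :
    ∀ n : ℕ, ∃ 𝒱 : Finset ℤ, 𝒱.Nonempty ∧ 𝒱.card ≤ 2 ^ n ∧
      (∀ V ∈ 𝒱, 0 < V ∧ Rough Y V ∧ Q ∣ V - 1 ∧ V ≤ B ^ n) ∧
      (∀ V ∈ 𝒱, ∀ V' ∈ 𝒱, (V' : ℝ) ≤ V * (1 + δ) ^ n) ∧
      min (Fintype.card G) (n + 1) ≤ (𝒱.image F).card ∧
      ((∀ x : G, x + x = 0) → min (Fintype.card G) (2 ^ n) ≤ (𝒱.image F).card ∧
        ∀ x y z : G, x ∈ 𝒱.image F → y ∈ 𝒱.image F → z ∈ 𝒱.image F → x - y + z ∈ 𝒱.image F) := by
  have hM : (0 : ℤ) < (Y ^ C : ℕ) := by positivity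
  have hB1 : 1 ≤ B := by
    have h1 : (1 : ℤ) ≤ (Y ^ k₀ : ℕ) := by
      have : 0 < Y ^ k₀ := by positivity
      omega
    have h2 : 1 ≤ 1 + Q * (A + (Y ^ C : ℕ)) := by
      have : 0 ≤ Q * (A + (Y ^ C : ℕ)) := by positivity
      linarith
    nlinarith
  intro n
  induction n with
  | zero =>
    refine ⟨{1}, singleton_nonempty _, by simp, ?_, ?_, ?_, ?_⟩
    · intro V hV
      rw [mem_singleton] at hV
      subst hV
      refine ⟨one_pos, ?_, by simp, by simp⟩
      intro p hp _ hd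
      have h1 : p ∣ 1 := Int.natCast_dvd_natCast.1 (by simpa using hd)
      exact hp.one_lt.ne' (Nat.dvd_one.1 h1)
    · intro V hV V' hV'
      rw [mem_singleton] at hV hV'
      subst hV hV'
      simp
    · simp
    · intro _
      refine ⟨by simp, ?_⟩
      intro x y z hx hy hz
      rw [image_singleton, mem_singleton] at hx hy hz ⊢
      rw [hx, hy, hz, sub_self, zero_add]
  | succ n ih =>
    obtain ⟨𝒱, h0, h1, h2, h3, h4, h5⟩ := ih
    have hδ1 : (1 : ℝ) ≤ 1 + δ := by linarith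
    by_cases hfull : 𝒱.image F = univ
    · refine ⟨𝒱, h0, h1.trans (Nat.pow_le_pow_right (by norm_num) (Nat.le_succ n)), ?_, ?_, ?_, ?_⟩
      · intro V hV
        obtain ⟨g1, g2, g3, g4⟩ := h2 V hV
        exact ⟨g1, g2, g3, g4.trans (pow_le_pow_right₀ hB1 (Nat.le_succ n))⟩
      · intro V hV V' hV'
        refine (h3 V hV V' hV').trans ?_
        have hV0 : (0 : ℝ) ≤ V := by exact_mod_cast (h2 V hV).1.le
        exact mul_le_mul_of_nonneg_left (pow_le_pow_right₀ hδ1 (Nat.le_succ n)) hV0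
      · rw [hfull, card_univ]
        exact min_le_left _ _
      · intro _
        rw [hfull, card_univ]
        exact ⟨min_le_left _ _, fun _ _ _ _ _ _ => mem_univ _⟩
    · obtain ⟨H, hH, hgrow, hgrow2⟩ := grow (𝒱.image F) (h0.image F) hfull
      obtain ⟨u, u', c, hu', huu, hc0, hpY, hru, hru', hrc, hq1, hq2, hpH⟩ := hpair H hH
      obtain ⟨v, v', k1, k2, k3, k4, k5, k6, k7⟩ :=
        exists_pairX hSV hK Q hQ0 hQ Y hY F hF H u u' c hu' huu hc0 hru hru' hrc hq1 hq2 hpH A hA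
      set U : ℤ := 1 + Q * v with hU
      set U' : ℤ := 1 + Q * v' with hU'
      have hv0 : 0 ≤ v := hA.trans k1
      have hU0 : 0 < U := by
        have : 0 ≤ Q * v := by positivity
        rw [hU]; linarith
      have hUU : U ≤ U' := by
        have : Q * v ≤ Q * v' := mul_le_mul_of_nonneg_left k2.le hQ0.le
        rw [hU, hU']; linarith
      have hU'0 : 0 < U' := hU0.trans_le hUU
      have hU'B : U' ≤ B := by
        refine (k4.trans ?_).trans hB
        apply mul_le_mul_of_nonneg_right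
        · exact_mod_cast hpY
        · have : 0 ≤ Q * (A + (Y ^ C : ℕ)) := by positivity
          linarith
      have hclose : (U' : ℝ) ≤ U * (1 + δ) := by
        have e1 : (U' : ℝ) - U = Q * ((v' : ℝ) - v) := by
          rw [hU, hU']; push_cast; ring
        have e2 : ((v' : ℝ) - v) ≤ 2 * ((Y ^ C : ℕ) : ℝ) := by exact_mod_cast k3
        have hQr : (0 : ℝ) < Q := by exact_mod_cast hQ0
        have e3 : (Q : ℝ) * A ≤ U := by
          have : Q * A ≤ U := by
            have : Q * A ≤ Q * v := mul_le_mul_of_nonneg_left k1 hQ0.le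
            rw [hU]; linarith
          exact_mod_cast this
        have e4 : (Q : ℝ) * ((v' : ℝ) - v) ≤ Q * (δ * A) :=
          mul_le_mul_of_nonneg_left (e2.trans hAδ) hQr.le
        have e5 : (Q : ℝ) * (δ * A) ≤ δ * U := by
          calc (Q : ℝ) * (δ * A) = δ * (Q * A) := by ring
            _ ≤ δ * U := mul_le_mul_of_nonneg_left e3 hδ
        linarith
      have hUc : ∀ x ∈ ({U, U'} : Finset ℤ), ∀ y ∈ ({U, U'} : Finset ℤ),
          (y : ℝ) ≤ x * (1 + δ) := by
        have hU0r : (0 : ℝ) < U := by exact_mod_cast hU0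
        have hUUr : (U : ℝ) ≤ U' := by exact_mod_cast hUU
        have g1 : (U : ℝ) ≤ U * (1 + δ) := by nlinarith
        have g2 : (U' : ℝ) ≤ U' * (1 + δ) := by nlinarith
        have g3 : (U : ℝ) ≤ U' * (1 + δ) := hUUr.trans g2
        intro x hx y hy
        rw [mem_insert, mem_singleton] at hx hy
        rcases hx with rfl | rfl <;> rcases hy with rfl | rfl
        · exact g1
        · exact hclose
        · exact g3
        · exact g2
      have hUp : ∀ x ∈ ({U, U'} : Finset ℤ), 0 < x ∧ Rough Y x ∧ Q ∣ x - 1 ∧ x ≤ B := by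
        intro x hx
        rw [mem_insert, mem_singleton] at hx
        rcases hx with rfl | rfl
        · exact ⟨hU0, k5, ⟨v, by rw [hU]; ring⟩, hUU.trans hU'B⟩
        · exact ⟨hU'0, k6, ⟨v', by rw [hU']; ring⟩, hU'B⟩
      have hmem : ∀ x : ℤ, x ∈ 𝒱.image (fun V => U * V) ∪ 𝒱.image (fun V => U' * V) ↔
          ∃ y ∈ ({U, U'} : Finset ℤ), ∃ V ∈ 𝒱, y * V = x := by
        intro x
        rw [mem_union, mem_image, mem_image]
        constructor
        · rintro (⟨V, hV, rfl⟩ | ⟨V, hV, rfl⟩)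
          · exact ⟨U, by simp, V, hV, rfl⟩
          · exact ⟨U', by simp, V, hV, rfl⟩
        · rintro ⟨y, hy, V, hV, rfl⟩
          rw [mem_insert, mem_singleton] at hy
          rcases hy with rfl | rfl
          · exact Or.inl ⟨V, hV, rfl⟩
          · exact Or.inr ⟨V, hV, rfl⟩
      have himg : (𝒱.image (fun V => U * V) ∪ 𝒱.image (fun V => U' * V)).image F =
            (𝒱.image F).image (fun x => F U + x) ∪ (𝒱.image F).image (fun x => F U' + x) := by
        rw [image_union, image_image, image_image, image_image, image_image]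
        congr 1
        · apply image_congr
          intro V hV
          exact hF _ _ hU0.ne' (h2 V hV).1.ne'
        · apply image_congr
          intro V hV
          exact hF _ _ hU'0.ne' (h2 V hV).1.ne'
      refine ⟨𝒱.image (fun V => U * V) ∪ 𝒱.image (fun V => U' * V), ?_, ?_, ?_, ?_, ?_, ?_⟩
      · exact (h0.image _).mono subset_union_left
      · refine (card_union_le _ _).trans ?_
        rw [pow_succ]
        have g1 := card_image_le (s := 𝒱) (f := fun V => U * V)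
        have g2 := card_image_le (s := 𝒱) (f := fun V => U' * V)
        omega
      · intro x hx
        obtain ⟨y, hy, V, hV, rfl⟩ := (hmem x).1 hx
        obtain ⟨g1, g2, g3, g4⟩ := hUp y hy
        obtain ⟨l1, l2, l3, l4⟩ := h2 V hV
        refine ⟨mul_pos g1 l1, rough_mul g2 l2, ?_, ?_⟩
        · have : y * V - 1 = y * (V - 1) + (y - 1) := by ring
          rw [this]
          exact dvd_add (l3.mul_left _) g3
        · rw [pow_succ, mul_comm (B ^ n)]
          exact mul_le_mul g4 l4 l1.le (by linarith)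
      · intro x hx x' hx'
        obtain ⟨y, hy, V, hV, rfl⟩ := (hmem x).1 hx
        obtain ⟨y', hy', V', hV', rfl⟩ := (hmem x').1 hx'
        have g1 := hUc y hy y' hy'
        have g2 := h3 V hV V' hV'
        have g3 : (0 : ℝ) ≤ V' := by exact_mod_cast (h2 V' hV').1.le
        have g4 : (0 : ℝ) ≤ y := by exact_mod_cast (hUp y hy).1.le
        push_cast
        calc (y' : ℝ) * V' ≤ (y * (1 + δ)) * (V * (1 + δ) ^ n) :=
              mul_le_mul g1 g2 g3 (by positivity)
          _ = (y : ℝ) * V * (1 + δ) ^ (n + 1) := by ring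
      · rw [himg]
        have := hgrow (F U) (F U') k7
        omega
      · intro h2x
        obtain ⟨h6, h7⟩ := h5 h2x
        rw [himg]
        constructor
        · have := hgrow2 h7 (F U) (F U') k7
          rw [pow_succ]
          omega
        · have hsub : ∀ x y : G, x - y = x + y := by
            intro x y
            rw [sub_eq_add_neg, neg_eq_of_add_eq_zero_left (h2x y)]
          have hm : ∀ x : G, x ∈ (𝒱.image F).image (fun x => F U + x) ∪
              (𝒱.image F).image (fun x => F U' + x) ↔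
              ∃ s ∈ ({F U, F U'} : Finset G), ∃ t ∈ 𝒱.image F, s + t = x := by
            intro x
            rw [mem_union, mem_image, mem_image]
            constructor
            · rintro (⟨t, ht, rfl⟩ | ⟨t, ht, rfl⟩)
              · exact ⟨F U, by simp, t, ht, rfl⟩
              · exact ⟨F U', by simp, t, ht, rfl⟩
            · rintro ⟨s, hs, t, ht, rfl⟩
              rw [mem_insert, mem_singleton] at hs
              rcases hs with rfl | rfl
              · exact Or.inl ⟨t, ht, rfl⟩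
              · exact Or.inr ⟨t, ht, rfl⟩
          have hs3 : ∀ s1 ∈ ({F U, F U'} : Finset G), ∀ s2 ∈ ({F U, F U'} : Finset G),
              ∀ s3 ∈ ({F U, F U'} : Finset G), s1 - s2 + s3 ∈ ({F U, F U'} : Finset G) := by
            have k1 : ∀ α β : G, α - β + α = β := by
              intro α β
              rw [hsub, add_right_comm, h2x, zero_add]
            intro s1 g1 s2 g2 s3 g3
            rw [mem_insert, mem_singleton] at g1 g2 g3 ⊢
            rcases g1 with g1 | g1 <;> rcases g2 with g2 | g2 <;> rcases g3 with g3 | g3 <;>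
              rw [g1, g2, g3] <;> simp [k1]
          intro x y z hx hy hz
          obtain ⟨s1, g1, t1, l1, rfl⟩ := (hm x).1 hx
          obtain ⟨s2, g2, t2, l2, rfl⟩ := (hm y).1 hy
          obtain ⟨s3, g3, t3, l3, rfl⟩ := (hm z).1 hz
          refine (hm _).2 ⟨s1 - s2 + s3, hs3 s1 g1 s2 g2 s3 g3, t1 - t2 + t3,
            h7 t1 t2 t3 l1 l2 l3, ?_⟩
          abel

end Pool.Agent.H72.CG
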