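import Mathlib
import Pool.Agent.H72.CG.MainG
import Pool.Agent.H72.CG.PairX

/-!
The theorem of `Pool.Agent.H72.CG.MainU` under the weaker condition of `Pool.Agent.H72.CG.PairX`.
-/

set_option autoImplicit false

open Finset

namespace Pool.Agent.H72.CG

open Pool.Agent.H661R3.OP (Rough t_CR)
open Pool.Agent.W5h75.SP (SVK exists_SVK ex_one rough_mul rough_prime rough_ne_zero)

/-- the modulus of the theorem -/
noncomputable def PP (κ r : ℕ) : ℕ := primorial (2 * (2 ^ r * κ + 1))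

theorem PP_pos (κ r : ℕ) : 0 < PP κ r := primorial_pos _

theorem mainX (k₀ κ r : ℕ) :
    ∃ D e : ℕ, 0 < D ∧ ∀ (m : ℕ), 0 < m → ∀ (r₀ : ℤ) (B : ℕ → Finset ℤ),
      (∀ p : ℕ, p.Prime → (B p).card ≤ κ) →
      (∀ p : ℕ, p.Prime → ∃ n : ℤ, ¬ (p : ℤ) ∣ r₀ + m * n ∧
        ∀ e ∈ B p, ¬ (p : ℤ) ∣ r₀ + m * n - e) →
      ∀ (G : Type) [AddCommGroup G] [Fintype G],
      (Fintype.card G ≤ r + 1 ∨ (∀ x : G, x + x = 0) ∧ Fintype.card G ≤ 2 ^ r) →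
      ∀ F : ℤ → G, AddG F → ∀ (Y : ℕ) (X Z : ℤ), 2 ≤ Y → 0 < X → 0 < Z → Z ≤ X →
      (D : ℝ) * (m : ℝ) ^ (r + 1) * (Y : ℝ) ^ e * (X : ℝ) ^ r ≤ (Z : ℝ) ^ (r + 1) →
      (∀ H : AddSubgroup G, H ≠ ⊤ → ∃ u u' c : ℤ, 0 < u' ∧ u' < u ∧ 0 < c ∧
        c * u ≤ (Y ^ k₀ : ℕ) ∧ Rough Y u ∧ Rough Y u' ∧ Rough Y c ∧
        ((PP κ r * m : ℕ) : ℤ) ∣ c * u - 1 ∧ ((PP κ r * m : ℕ) : ℤ) ∣ c * u' - 1 ∧
        F u - F u' ∉ H) → ∀ c : G,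
      (Z : ℝ) ^ (r + 1) ≤ (D : ℝ) * (m : ℝ) ^ (r + 1) * (Y : ℝ) ^ e * (X : ℝ) ^ r *
        ({n : ℤ | X < n ∧ n ≤ X + Z ∧ (m : ℤ) ∣ n - r₀ ∧ Rough Y n ∧
          (∀ p : ℕ, p.Prime → p ≤ Y → ∀ e ∈ B p, ¬ (p : ℤ) ∣ n - e) ∧ F n = c}.ncard : ℝ) := by
  classical
  set K : ℕ := 2 ^ r * κ + 1 with hK
  obtain ⟨C₁, hC₁⟩ := exists_SVK K
  obtain ⟨C₂, hC₂⟩ := exists_SVG K (by omega)
  set C : ℕ := max C₁ C₂ with hC
  have hSV : SVK K C := SVK_mono hC₁ (le_max_left _ _)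
  have hSG : SVG K C := hC₂.mono (le_max_right _ _)
  obtain ⟨P, hPP⟩ : ∃ P : ℕ, P = PP κ r := ⟨_, rfl⟩
  have hP : P = primorial (2 * K) := by rw [hPP]; rfl
  have hP0 : 0 < P := hP ▸ primorial_pos _
  rw [← hPP]
  refine ⟨4 * P * 2 ^ r * (15 * 2 ^ r * P) ^ r, C + (C + k₀) * r, by positivity, ?_⟩
  intro m hm r₀ B hBκ hadm G _ _ hGr F hF Y X Z hY hX hZ hZX hsize hprime c
  obtain ⟨W, hWdef⟩ : ∃ W : ℕ, W = P * m := ⟨_, rfl⟩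
  have hW : 0 < W := hWdef ▸ Nat.mul_pos hP0 hm
  have hWp : ∀ p : ℕ, p.Prime → p ≤ 2 * K → p ∣ W := fun p hp h => by
    rw [hWdef, hP]
    exact (hp.dvd_primorial_iff.2 h).mul_right _
  have hmW : m ∣ W := hWdef ▸ dvd_mul_left m _
  have hWz : (0 : ℤ) < W := by exact_mod_cast hW
  obtain ⟨Q, hQ⟩ : ∃ Q : ℤ, Q = (W : ℤ) := ⟨_, rfl⟩
  have hQ0 : 0 < Q := hQ ▸ hWz
  have hQp : ∀ p : ℕ, p.Prime → p ≤ 2 * K → (p : ℤ) ∣ Q := fun p hp hpK =>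
    hQ ▸ Int.natCast_dvd_natCast.2 (hWp p hp hpK)
  have hqQ : ((Q.toNat : ℕ) : ℤ) = Q := Int.toNat_of_nonneg hQ0.le
  rw [← hWdef, ← hQ] at hprime
  have hDm : ((4 * P * 2 ^ r * (15 * 2 ^ r * P) ^ r : ℕ) : ℝ) * (m : ℝ) ^ (r + 1) =
      ((4 * W * 2 ^ r * (15 * 2 ^ r * Q.toNat) ^ r : ℕ) : ℝ) := by
    have e1 : Q.toNat = W := by omega
    rw [e1, hWdef]
    push_cast
    ring
  rw [hDm] at hsize ⊢
  -- the residue class modulo `W`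
  choose r' hr' using hadm
  obtain ⟨n', hn'⟩ := t_CR {p : Fin (W + 1) // (p : ℕ).Prime} (fun p => ((p.1 : ℕ) : ℤ))
    (fun p => r' p.1 p.2) (by
      rintro ⟨i, hi⟩ ⟨j, hj⟩ hij
      have hne : (i : ℕ) ≠ (j : ℕ) := by
        intro hh
        apply hij
        ext
        exact hh
      exact Nat.isCoprime_iff_coprime.2 ((Nat.coprime_primes hi hj).2 hne))
  set n₀ : ℤ := r₀ + m * n' with hn₀def
  have hn₀r : (m : ℤ) ∣ n₀ - r₀ := ⟨n', by rw [hn₀def]; ring⟩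
  have hn₀ : ∀ p : ℕ, p.Prime → p ∣ W → ¬ (p : ℤ) ∣ n₀ ∧ ∀ e ∈ B p, ¬ (p : ℤ) ∣ n₀ - e := by
    intro p hp hpW
    have hpK : p ≤ W := Nat.le_of_dvd hW hpW
    have h1 := hn' ⟨⟨p, by omega⟩, hp⟩
    have h2 : r₀ + m * r' p hp = n₀ - m * (n' - r' p hp) := by rw [hn₀def]; ring
    constructor
    · intro hd
      apply (hr' p hp).1
      rw [h2]
      exact dvd_sub hd (h1.mul_left _)
    · intro e he hd
      apply (hr' p hp).2 e he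
      have h3 : r₀ + m * r' p hp - e = (n₀ - e) - m * (n' - r' p hp) := by rw [h2]; ring
      rw [h3]
      exact dvd_sub hd (h1.mul_left _)
  -- real quantities
  have hXr : (0 : ℝ) < X := by exact_mod_cast hX
  have hZr : (0 : ℝ) < Z := by exact_mod_cast hZ
  have hZXr : (Z : ℝ) ≤ X := by exact_mod_cast hZX
  have hQr : (1 : ℝ) ≤ Q := by exact_mod_cast hQ0
  have hWr : (1 : ℝ) ≤ W := by exact_mod_cast hW
  have hYr : (2 : ℝ) ≤ Y := by exact_mod_cast hY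
  have hYC : (1 : ℝ) ≤ (Y : ℝ) ^ C := one_le_pow₀ (by linarith)
  have h2r : (1 : ℝ) ≤ (2 : ℝ) ^ r := one_le_pow₀ (by norm_num)
  have hXZ : (1 : ℝ) ≤ X / Z := by rw [le_div_iff₀ hZr]; linarith
  -- the number `A`
  set A : ℤ := 12 * 2 ^ r * X * (Y ^ C : ℕ) / Z + 1 with hA
  have hA1 : 12 * 2 ^ r * X * (Y ^ C : ℕ) < Z * A := by
    have h1 := Int.lt_mul_ediv_self_add (x := 12 * 2 ^ r * X * (Y ^ C : ℕ)) hZ
    rw [hA, mul_add, mul_one]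
    exact h1
  have hA2 : Z * A ≤ 12 * 2 ^ r * X * (Y ^ C : ℕ) + Z := by
    have h1 := Int.mul_ediv_self_le (x := 12 * 2 ^ r * X * (Y ^ C : ℕ)) hZ.ne'
    rw [hA, mul_add, mul_one]
    linarith
  have hA0 : 0 ≤ A := by
    have : 0 < Z * A := lt_of_le_of_lt (by positivity) hA1
    exact (pos_of_mul_pos_right this hZ.le).le
  have hA1r : 12 * 2 ^ r * (X : ℝ) * (Y : ℝ) ^ C < Z * A := by exact_mod_cast hA1
  have hA2r : (Z : ℝ) * A ≤ 12 * 2 ^ r * (X : ℝ) * (Y : ℝ) ^ C + Z := by exact_mod_cast hA2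
  have hA3 : (A : ℝ) ≤ 13 * 2 ^ r * (Y : ℝ) ^ C * (X / Z) := by
    have h1 : (A : ℝ) ≤ (12 * 2 ^ r * (X : ℝ) * (Y : ℝ) ^ C + Z) / Z := by
      rw [le_div_iff₀ hZr]; linarith
    have h2 : (12 * 2 ^ r * (X : ℝ) * (Y : ℝ) ^ C + Z) / Z =
        12 * 2 ^ r * (Y : ℝ) ^ C * (X / Z) + 1 := by
      field_simp
    have h3 : (1 : ℝ) ≤ 2 ^ r * (Y : ℝ) ^ C * (X / Z) := by
      have := one_le_mul_of_one_le_of_one_le (one_le_mul_of_one_le_of_one_le h2r hYC) hXZ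
      exact this
    rw [h2] at h1
    linarith
  -- the number `Bd`
  set Bd : ℤ := (Y ^ k₀ : ℕ) * (1 + Q * (A + (Y ^ C : ℕ))) with hB
  set β : ℝ := 15 * 2 ^ r * Q * (Y : ℝ) ^ (C + k₀) * (X / Z) with hβ
  have hBβ : (Bd : ℝ) ≤ β := by
    have h1 : (1 : ℝ) + Q * (A + (Y : ℝ) ^ C) ≤ 15 * 2 ^ r * Q * (Y : ℝ) ^ C * (X / Z) := by
      have g1 : (1 : ℝ) ≤ 2 ^ r * (Y : ℝ) ^ C * (X / Z) := by
        have := one_le_mul_of_one_le_of_one_le (one_le_mul_of_one_le_of_one_le h2r hYC) hXZ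
        exact this
      have g2 : (Y : ℝ) ^ C ≤ 2 ^ r * (Y : ℝ) ^ C * (X / Z) := by
        have h5 : (1 : ℝ) ≤ 2 ^ r * (X / Z) := one_le_mul_of_one_le_of_one_le h2r hXZ
        calc (Y : ℝ) ^ C = (Y : ℝ) ^ C * 1 := (mul_one _).symm
          _ ≤ (Y : ℝ) ^ C * (2 ^ r * (X / Z)) := mul_le_mul_of_nonneg_left h5 (by positivity)
          _ = _ := by ring
      have g3 : (1 : ℝ) + Q * (A + (Y : ℝ) ^ C) ≤ Q * (1 + (A + (Y : ℝ) ^ C)) := by nlinarith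
      have g4 : 1 + (A + (Y : ℝ) ^ C) ≤ 15 * (2 ^ r * (Y : ℝ) ^ C * (X / Z)) := by linarith
      calc (1 : ℝ) + Q * (A + (Y : ℝ) ^ C) ≤ Q * (1 + (A + (Y : ℝ) ^ C)) := g3
        _ ≤ Q * (15 * (2 ^ r * (Y : ℝ) ^ C * (X / Z))) :=
          mul_le_mul_of_nonneg_left g4 (by linarith)
        _ = _ := by ring
    rw [hB, hβ]
    push_cast
    calc (Y : ℝ) ^ k₀ * (1 + Q * (A + (Y : ℝ) ^ C)) ≤
        (Y : ℝ) ^ k₀ * (15 * 2 ^ r * Q * (Y : ℝ) ^ C * (X / Z)) :=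
          mul_le_mul_of_nonneg_left h1 (by positivity)
      _ = _ := by rw [pow_add]; ring
  have hβ0 : 0 < β := by rw [hβ]; positivity
  have hB0 : 0 ≤ Bd := by rw [hB]; positivity
  have hB0r : (0 : ℝ) ≤ Bd := by exact_mod_cast hB0
  -- the number `δ`
  set δ : ℝ := Z / (6 * 2 ^ r * X) with hδ
  have h6 : (0 : ℝ) < 6 * 2 ^ r * X := by positivity
  have hδ0 : 0 ≤ δ := by rw [hδ]; positivity
  have hδ1 : δ ≤ 1 := by
    rw [hδ, div_le_one h6]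
    nlinarith
  have hδX : 6 * X * (2 ^ r * δ) = Z := by
    rw [hδ]; field_simp
  have hAδ : 2 * ((Y ^ C : ℕ) : ℝ) ≤ δ * A := by
    have h1 : δ * A = (Z * A) / (6 * 2 ^ r * X) := by rw [hδ]; ring
    rw [h1, le_div_iff₀ h6]
    push_cast
    linarith
  obtain ⟨𝒱, h0, h1, h2, h3, h4, h5⟩ := familyX k₀ hSV (by omega) Q hQ0 hQp Y hY F hF hprime A Bd hA0
    le_rfl δ hδ0 hAδ r
  have hfull : 𝒱.image F = univ := by
    have hc : Fintype.card G ≤ (𝒱.image F).card := by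
      rcases hGr with hGr | ⟨h2x, hGr⟩
      · omega
      · have := (h5 h2x).1
        omega
    exact (card_eq_iff_eq_univ _).1 (le_antisymm (card_le_univ _) hc)
  have himage : ∀ g : G, ∃ V ∈ 𝒱, F V = g := by
    intro g
    have : g ∈ 𝒱.image F := by rw [hfull]; exact mem_univ g
    exact mem_image.1 this
  have hclose : ∀ V ∈ 𝒱, ∀ V' ∈ 𝒱, 6 * X * (V' - V) ≤ Z * V := by
    intro V hV V' hV'
    have g1 := h3 V hV V' hV'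
    have g2 := one_add_pow_le δ hδ0 hδ1 r
    have hV0 : (0 : ℝ) < V := by exact_mod_cast (h2 V hV).1
    have g3 : (V' : ℝ) ≤ V * (1 + 2 ^ r * δ) := g1.trans (mul_le_mul_of_nonneg_left g2 hV0.le)
    have g4 : 6 * (X : ℝ) * (V' - V) ≤ Z * V := by
      calc 6 * (X : ℝ) * (V' - V) ≤ 6 * X * (V * (2 ^ r * δ)) := by
            apply mul_le_mul_of_nonneg_left _ (by positivity)
            linarith
        _ = (6 * X * (2 ^ r * δ)) * V := by ring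
        _ = Z * V := by rw [hδX]
    exact_mod_cast g4
  -- the number `T`
  have hβr : 0 < β ^ r := pow_pos hβ0 r
  have hden : (0 : ℝ) < 2 * W * β ^ r := by positivity
  set T : ℕ := ⌊(Z : ℝ) / (2 * W * β ^ r)⌋₊ with hT
  have hDY : ((4 * W * 2 ^ r * (15 * 2 ^ r * Q.toNat) ^ r : ℕ) : ℝ) * (Y : ℝ) ^ (C + (C + k₀) * r) *
      (X : ℝ) ^ r = (4 * W * 2 ^ r * (Y : ℝ) ^ C * β ^ r) * (Z : ℝ) ^ r := by
    have e1 : β * Z = 15 * 2 ^ r * Q * (Y : ℝ) ^ (C + k₀) * X := by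
      rw [hβ]; field_simp
    have e2 : β ^ r * (Z : ℝ) ^ r = (15 * 2 ^ r * Q * (Y : ℝ) ^ (C + k₀) * X) ^ r := by
      rw [← mul_pow, e1]
    have e3 : ((Q.toNat : ℕ) : ℝ) = (Q : ℝ) := by
      have h := congrArg (fun z : ℤ => (z : ℝ)) hqQ
      simpa only [Int.cast_natCast] using h
    have e4 : (4 * W * 2 ^ r * (Y : ℝ) ^ C * β ^ r) * (Z : ℝ) ^ r =
        4 * W * 2 ^ r * (Y : ℝ) ^ C * (β ^ r * (Z : ℝ) ^ r) := by ring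
    rw [e4, e2]
    push_cast
    rw [e3, pow_add, pow_mul, mul_pow, mul_pow (15 * 2 ^ r * (Q : ℝ) * (Y : ℝ) ^ (C + k₀)),
      mul_pow (15 * 2 ^ r * (Q : ℝ)) ((Y : ℝ) ^ (C + k₀)), mul_pow (15 * (2 : ℝ) ^ r) (Q : ℝ)]
    ring
  have hZrr : (0 : ℝ) < (Z : ℝ) ^ r := pow_pos hZr r
  have hbig : 4 * W * 2 ^ r * (Y : ℝ) ^ C * β ^ r ≤ Z := by
    rw [hDY, pow_succ, mul_comm ((Z : ℝ) ^ r) (Z : ℝ)] at hsize
    exact le_of_mul_le_mul_right hsize hZrr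
  have hq1 : 2 * (Y : ℝ) ^ C ≤ (Z : ℝ) / (2 * W * β ^ r) := by
    rw [le_div_iff₀ hden]
    have g1 : (2 * (Y : ℝ) ^ C) * (2 * W * β ^ r) * 1 ≤ (2 * (Y : ℝ) ^ C) * (2 * W * β ^ r) * 2 ^ r :=
      mul_le_mul_of_nonneg_left h2r (by positivity)
    calc (2 * (Y : ℝ) ^ C) * (2 * W * β ^ r) = (2 * (Y : ℝ) ^ C) * (2 * W * β ^ r) * 1 := by ring
      _ ≤ _ := g1
      _ = 4 * W * 2 ^ r * (Y : ℝ) ^ C * β ^ r := by ring
      _ ≤ Z := hbig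
  have hTY : Y ^ C ≤ T := by
    rw [hT]
    apply Nat.le_floor
    push_cast
    linarith
  have hTlow : (Z : ℝ) / (2 * W * β ^ r) ≤ 2 * T := by
    have g1 : (Z : ℝ) / (2 * W * β ^ r) < T + 1 := Nat.lt_floor_add_one _
    linarith
  have hThigh : (T : ℝ) ≤ (Z : ℝ) / (2 * W * β ^ r) := Nat.floor_le (by positivity)
  have hlen : ∀ V ∈ 𝒱, 2 * W * V * T ≤ Z := by
    intro V hV
    obtain ⟨g1, -, -, g2⟩ := h2 V hV
    have g3 : (V : ℝ) ≤ β ^ r := by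
      calc (V : ℝ) ≤ ((Bd ^ r : ℤ) : ℝ) := by exact_mod_cast g2
        _ = (Bd : ℝ) ^ r := by push_cast; rfl
        _ ≤ β ^ r := pow_le_pow_left₀ hB0r hBβ r
    have g4 : (2 * W * V * T : ℝ) ≤ Z := by
      calc (2 * W * V * T : ℝ) = (2 * W * T) * V := by ring
        _ ≤ (2 * W * T) * β ^ r := mul_le_mul_of_nonneg_left g3 (by positivity)
        _ = T * (2 * W * β ^ r) := by ring
        _ ≤ Z := by rwa [le_div_iff₀ hden] at hThigh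
    exact_mod_cast g4
  have hcount := countG W n₀ K C hSG hW hWp Y hY B κ hBκ hn₀ F hF X Z hZX hX 𝒱
    (by
      have := Nat.mul_le_mul_right κ h1
      omega) (fun V hV => ⟨(h2 V hV).1, (h2 V hV).2.1, by rw [← hQ]; exact (h2 V hV).2.2.1⟩)
    hclose himage T hTY hlen c
  have hsub : ValG B F c W n₀ Y X Z ⊆ {n : ℤ | X < n ∧ n ≤ X + Z ∧ (m : ℤ) ∣ n - r₀ ∧ Rough Y n ∧
      (∀ p : ℕ, p.Prime → p ≤ Y → ∀ e ∈ B p, ¬ (p : ℤ) ∣ n - e) ∧ F n = c} := by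
    rintro n ⟨g1, g2, g3, g4, g5⟩
    refine ⟨g1, g2, ?_, g4, g5⟩
    have e : n - r₀ = (n - n₀) + (n₀ - r₀) := by ring
    rw [e]
    exact dvd_add ((Int.natCast_dvd_natCast.2 hmW).trans g3) hn₀r
  have hfin : {n : ℤ | X < n ∧ n ≤ X + Z ∧ (m : ℤ) ∣ n - r₀ ∧ Rough Y n ∧
      (∀ p : ℕ, p.Prime → p ≤ Y → ∀ e ∈ B p, ¬ (p : ℤ) ∣ n - e) ∧ F n = c}.Finite :=
    (Set.finite_Ioc X (X + Z)).subset fun _ hn => ⟨hn.1, hn.2.1⟩
  have hN := Set.ncard_le_ncard hsub hfin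
  set N : ℕ := {n : ℤ | X < n ∧ n ≤ X + Z ∧ (m : ℤ) ∣ n - r₀ ∧ Rough Y n ∧
      (∀ p : ℕ, p.Prime → p ≤ Y → ∀ e ∈ B p, ¬ (p : ℤ) ∣ n - e) ∧ F n = c}.ncard with hNdef
  have hTN : T ≤ Y ^ C * (2 ^ r * N) :=
    hcount.trans (Nat.mul_le_mul_left _ (Nat.mul_le_mul h1 hN))
  have hTNr : (T : ℝ) ≤ (Y : ℝ) ^ C * (2 ^ r * N) := by exact_mod_cast hTN
  have hfinal : (Z : ℝ) ≤ (4 * W * 2 ^ r * (Y : ℝ) ^ C * β ^ r) * N := by
    rw [div_le_iff₀ hden] at hTlow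
    calc (Z : ℝ) ≤ 2 * T * (2 * W * β ^ r) := hTlow
      _ ≤ 2 * ((Y : ℝ) ^ C * (2 ^ r * N)) * (2 * W * β ^ r) := by
        apply mul_le_mul_of_nonneg_right _ hden.le
        linarith
      _ = _ := by ring
  rw [hDY, pow_succ]
  calc (Z : ℝ) ^ r * Z ≤ (Z : ℝ) ^ r * ((4 * W * 2 ^ r * (Y : ℝ) ^ C * β ^ r) * N) :=
        mul_le_mul_of_nonneg_left hfinal hZrr.le
    _ = _ := by ring

end Pool.Agent.H72.CG
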