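import Mathlib
import Pool.Agent.H72.CG.Main

/-!
The values of additive functions with values in a finite abelian group at one member of a rough tuple,
in all short intervals.
-/

set_option autoImplicit false

open Finset

namespace Pool.Agent.H72.CG

open Pool.Agent.H661R3.OP (Rough)

theorem real_version (ι : Type) [Fintype ι] (a b : ι → ℤ) (ha : ∀ i, 0 < a i) (o : ι) (m : ℕ)
    (hm : 0 < m) (r₀ : ℤ)
    (hadm : ∀ p : ℕ, p.Prime → ∃ n : ℤ, ∀ i, ¬ (p : ℤ) ∣ a i * (r₀ + m * n) + b i) (g : ℕ)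
    (hg : 1 ≤ g) (θ ε : ℝ) (hθ : 1 - 1 / (g : ℝ) < θ) (hθ1 : θ ≤ 1) (hε : 0 < ε) :
    ∃ (q : ℕ) (δ : ℝ), 0 < q ∧ 0 < δ ∧ ∃ x₀ : ℝ, 1 ≤ x₀ ∧ ∀ x : ℝ, x₀ ≤ x →
      ∀ (G : Type) [AddCommGroup G] [Fintype G],
      (Fintype.card G ≤ g ∨ (∀ x : G, x + x = 0) ∧ Fintype.card G ≤ 2 ^ (g - 1)) →
      ∀ F : ℤ → G, AddG F →
      (∀ H : AddSubgroup G, H ≠ ⊤ → ∃ p : ℕ, p.Prime ∧ x ^ δ < p ∧ (p : ℝ) ≤ x ^ (2 * δ) ∧
        (q : ℤ) ∣ (p : ℤ) - 1 ∧ F p ∉ H) → ∀ c : G,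
      x ^ (1 - g * (1 - θ) - ε) ≤ ({n : ℤ | x < n ∧ (n : ℝ) ≤ x + x ^ θ ∧ (m : ℤ) ∣ n - r₀ ∧
        (∀ i, ∀ p : ℕ, p.Prime → (p : ℤ) ∣ a i * n + b i → x ^ δ < p) ∧
        F (a o * n + b o) = c}.ncard : ℝ) := by
  obtain ⟨r, rfl⟩ : ∃ r : ℕ, g = r + 1 := ⟨g - 1, by omega⟩
  obtain ⟨q, D, e, hq, hD, hmain⟩ := main ι a b ha o m hm r₀ hadm r
  have hg0 : (0 : ℝ) < ((r + 1 : ℕ) : ℝ) := by positivity
  set ρ : ℝ := 1 - ((r + 1 : ℕ) : ℝ) * (1 - θ) with hρ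
  have hρ0 : 0 < ρ := by
    have h1 : ((r + 1 : ℕ) : ℝ) * (1 - θ) < 1 := by
      have h2 : 1 - θ < 1 / ((r + 1 : ℕ) : ℝ) := by linarith
      rwa [lt_div_iff₀ hg0, mul_comm] at h2
    rw [hρ]; linarith
  have hθ0 : 0 < θ := by
    have h1 : 1 / ((r + 1 : ℕ) : ℝ) ≤ 1 := by
      rw [div_le_one hg0]
      have : (1 : ℝ) ≤ ((r + 1 : ℕ) : ℝ) := by exact_mod_cast hg
      exact this
    linarith
  set s : ℝ := min (min ε ρ) 1 with hs
  have hs0 : 0 < s := lt_min (lt_min hε hρ0) one_pos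
  have hsε : s ≤ ε := (min_le_left _ _).trans (min_le_left _ _)
  have hsρ : s ≤ ρ := (min_le_left _ _).trans (min_le_right _ _)
  set δ : ℝ := s / (4 * (e + 1)) with hδ
  have he1 : (0 : ℝ) < 4 * (e + 1) := by positivity
  have hδ0 : 0 < δ := by positivity
  have hδe : δ * e ≤ s / 4 := by
    have h1 : δ * (4 * (e + 1)) = s := by rw [hδ]; field_simp
    nlinarith
  refine ⟨q, δ, hq, hδ0, ?_⟩
  have l1 : ∀ᶠ x : ℝ in Filter.atTop, (8 : ℝ) ≤ x ^ δ :=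
    (tendsto_rpow_atTop hδ0).eventually_ge_atTop _
  have l2 : ∀ᶠ x : ℝ in Filter.atTop, (4 : ℝ) ≤ x ^ θ :=
    (tendsto_rpow_atTop hθ0).eventually_ge_atTop _
  have l3 : ∀ᶠ x : ℝ in Filter.atTop, (D : ℝ) * 2 ^ (2 * r + 1) ≤ x ^ (3 * s / 4) :=
    (tendsto_rpow_atTop (by positivity)).eventually_ge_atTop _
  have l4 : ∀ᶠ x : ℝ in Filter.atTop, (|(b o : ℝ)| + 1 : ℝ) ≤ x := Filter.eventually_ge_atTop _
  obtain ⟨x₀, hx₀⟩ := Filter.eventually_atTop.mp (l1.and (l2.and (l3.and l4)))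
  refine ⟨max x₀ 1, le_max_right _ _, ?_⟩
  intro x hx G _ _ hGr F hF hprime c
  have hx1 : 1 ≤ x := (le_max_right _ _).trans hx
  obtain ⟨h1, h2, h3, h4⟩ := hx₀ x ((le_max_left _ _).trans hx)
  have hx0 : (0 : ℝ) < x := by linarith
  -- the parameters
  set X : ℤ := ⌈x⌉ with hX
  set Z : ℤ := ⌊x ^ θ⌋ - 1 with hZ
  set Y : ℕ := ⌊x ^ δ⌋₊ with hY
  have hXx : x ≤ X := Int.le_ceil x
  have hXx' : (X : ℝ) < x + 1 := Int.ceil_lt_add_one x
  have hZx : (Z : ℝ) ≤ x ^ θ - 1 := by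
    rw [hZ]; push_cast
    have := Int.floor_le (x ^ θ)
    linarith
  have hZx' : x ^ θ - 2 < (Z : ℝ) := by
    rw [hZ]; push_cast
    have := Int.lt_floor_add_one (x ^ θ)
    linarith
  have hZ2 : x ^ θ / 2 ≤ Z := by linarith
  have hZ0 : 0 < Z := by
    have : (0 : ℝ) < Z := by linarith
    exact_mod_cast this
  have hθx : x ^ θ ≤ x := by
    calc x ^ θ ≤ x ^ (1 : ℝ) := Real.rpow_le_rpow_of_exponent_le hx1 hθ1
      _ = x := Real.rpow_one x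
  have hZX : Z ≤ X := by
    have : (Z : ℝ) ≤ X := by linarith
    exact_mod_cast this
  have hb : |b o| < X := by
    have : ((|b o| : ℤ) : ℝ) < X := by push_cast; linarith
    exact_mod_cast this
  have hYx : (Y : ℝ) ≤ x ^ δ := Nat.floor_le (by positivity)
  have hYx' : x ^ δ < (Y : ℝ) + 1 := Nat.lt_floor_add_one _
  have hY2 : 2 ≤ Y := by
    rw [hY]; apply Nat.le_floor; push_cast; linarith
  have hYh : x ^ δ / 2 ≤ (Y : ℝ) := by linarith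
  have hX2 : (X : ℝ) ≤ 2 * x := by linarith
  have hxδ0 : 0 < x ^ δ := by positivity
  have hxθ0 : 0 < x ^ θ := by positivity
  -- upper bound for `D Y ^ e X ^ r`
  have hup : (D : ℝ) * (Y : ℝ) ^ e * (X : ℝ) ^ r ≤ D * 2 ^ r * (x ^ (δ * e) * x ^ r) := by
    have g1 : (Y : ℝ) ^ e ≤ x ^ (δ * e) := by
      calc (Y : ℝ) ^ e ≤ (x ^ δ) ^ e := pow_le_pow_left₀ (by positivity) hYx e
        _ = x ^ (δ * e) := by rw [← Real.rpow_natCast, ← Real.rpow_mul hx0.le]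
    have hXr0 : (0 : ℝ) ≤ X := by linarith
    have g2 : (X : ℝ) ^ r ≤ 2 ^ r * x ^ r := by
      rw [← mul_pow]
      exact pow_le_pow_left₀ hXr0 hX2 r
    calc (D : ℝ) * (Y : ℝ) ^ e * (X : ℝ) ^ r ≤ D * x ^ (δ * e) * (2 ^ r * x ^ r) := by
          apply mul_le_mul _ g2 (by positivity) (by positivity)
          exact mul_le_mul_of_nonneg_left g1 (by positivity)
      _ = _ := by ring
  have hlow : x ^ (θ * (r + 1)) / 2 ^ (r + 1) ≤ (Z : ℝ) ^ (r + 1) := by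
    calc x ^ (θ * (r + 1)) / 2 ^ (r + 1) = (x ^ θ / 2) ^ (r + 1) := by
          rw [div_pow, ← Real.rpow_natCast (x ^ θ), ← Real.rpow_mul hx0.le]
          push_cast
          rfl
      _ ≤ (Z : ℝ) ^ (r + 1) := pow_le_pow_left₀ (by positivity) hZ2 _
  have hexp : x ^ (θ * (r + 1)) = x ^ ρ * x ^ r := by
    rw [← Real.rpow_natCast x r, ← Real.rpow_add hx0]
    congr 1
    rw [hρ]; push_cast; ring
  have hD0 : (0 : ℝ) < D := by exact_mod_cast hD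
  have hsize : (D : ℝ) * (Y : ℝ) ^ e * (X : ℝ) ^ r ≤ (Z : ℝ) ^ (r + 1) := by
    refine hup.trans (le_trans ?_ hlow)
    rw [le_div_iff₀ (by positivity), hexp]
    have g1 : (D : ℝ) * 2 ^ (2 * r + 1) * x ^ (δ * e) ≤ x ^ ρ := by
      calc (D : ℝ) * 2 ^ (2 * r + 1) * x ^ (δ * e) ≤ x ^ (3 * s / 4) * x ^ (s / 4) := by
            apply mul_le_mul h3 (Real.rpow_le_rpow_of_exponent_le hx1 hδe) (by positivity)
              (by positivity)
        _ = x ^ s := by rw [← Real.rpow_add hx0]; congr 1; ring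
        _ ≤ x ^ ρ := Real.rpow_le_rpow_of_exponent_le hx1 hsρ
    calc (D : ℝ) * 2 ^ r * (x ^ (δ * e) * x ^ r) * 2 ^ (r + 1)
        = (D * 2 ^ (2 * r + 1) * x ^ (δ * e)) * x ^ r := by
          rw [show 2 * r + 1 = r + (r + 1) by ring, pow_add (2 : ℝ) r (r + 1)]
          ring
      _ ≤ x ^ ρ * x ^ r := mul_le_mul_of_nonneg_right g1 (by positivity)
  have hres := hmain G (by simpa using hGr) F hF Y X Z hY2 hb hZ0 hZX hsize (by
    intro H hH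
    obtain ⟨p, k1, k2, k3, k4, k5⟩ := hprime H hH
    refine ⟨p, k1, ?_, ?_, k4, k5⟩
    · have : (Y : ℝ) < p := lt_of_le_of_lt hYx k2
      exact_mod_cast this
    · have g1 : x ^ (2 * δ) ≤ (Y : ℝ) ^ 3 := by
        have g2 : x ^ (2 * δ) = (x ^ δ) ^ 2 := by
          rw [← Real.rpow_natCast (x ^ δ), ← Real.rpow_mul hx0.le]
          congr 1
          push_cast
          ring
        have g3 : (x ^ δ / 2) ^ 3 ≤ (Y : ℝ) ^ 3 := pow_le_pow_left₀ (by positivity) hYh 3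
        rw [g2]
        refine le_trans ?_ g3
        have g4 : (x ^ δ / 2) ^ 3 = (x ^ δ) ^ 2 * (x ^ δ / 8) := by ring
        rw [g4]
        have g5 : (1 : ℝ) ≤ x ^ δ / 8 := by linarith
        exact le_mul_of_one_le_right (by positivity) g5
      have : (p : ℝ) ≤ ((Y ^ 3 : ℕ) : ℝ) := by push_cast; linarith
      exact_mod_cast this) c
  set N : ℝ := ({n : ℤ | X < n ∧ n ≤ X + Z ∧ (m : ℤ) ∣ n - r₀ ∧ (∀ i, Rough Y (a i * n + b i)) ∧
    F (a o * n + b o) = c}.ncard : ℝ) with hN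
  have hN0 : 0 ≤ N := by positivity
  have hcount : x ^ (1 - ((r + 1 : ℕ) : ℝ) * (1 - θ) - ε) ≤ N := by
    have g1 : x ^ ρ * x ^ r / 2 ^ (r + 1) ≤ D * 2 ^ r * (x ^ (δ * e) * x ^ r) * N := by
      rw [← hexp]
      exact hlow.trans (hres.trans (mul_le_mul_of_nonneg_right hup hN0))
    rw [div_le_iff₀ (by positivity)] at g1
    have hxr : (0 : ℝ) < x ^ r := by positivity
    have g2 : x ^ ρ ≤ (D * 2 ^ (2 * r + 1) * x ^ (δ * e)) * N := by
      apply le_of_mul_le_mul_right _ hxr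
      calc x ^ ρ * x ^ r ≤ D * 2 ^ r * (x ^ (δ * e) * x ^ r) * N * 2 ^ (r + 1) := g1
        _ = (D * 2 ^ (2 * r + 1) * x ^ (δ * e)) * N * x ^ r := by
          rw [show 2 * r + 1 = r + (r + 1) by ring, pow_add (2 : ℝ) r (r + 1)]
          ring
    have g3 : (D : ℝ) * 2 ^ (2 * r + 1) * x ^ (δ * e) ≤ x ^ ε := by
      calc (D : ℝ) * 2 ^ (2 * r + 1) * x ^ (δ * e) ≤ x ^ (3 * s / 4) * x ^ (s / 4) := by
            apply mul_le_mul h3 (Real.rpow_le_rpow_of_exponent_le hx1 hδe) (by positivity)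
              (by positivity)
        _ = x ^ s := by rw [← Real.rpow_add hx0]; congr 1; ring
        _ ≤ x ^ ε := Real.rpow_le_rpow_of_exponent_le hx1 hsε
    have g4 : x ^ ρ ≤ x ^ ε * N := g2.trans (mul_le_mul_of_nonneg_right g3 hN0)
    have hxε : 0 < x ^ ε := by positivity
    rw [show 1 - ((r + 1 : ℕ) : ℝ) * (1 - θ) - ε = ρ - ε by rw [hρ], Real.rpow_sub hx0,
      div_le_iff₀ hxε, mul_comm]
    exact g4
  refine hcount.trans ?_
  rw [hN]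
  refine Nat.cast_le.2 (Set.ncard_le_ncard ?_ ?_)
  · rintro n ⟨k1, k2, k3, k4, k5⟩
    have k1r : (X : ℝ) < n := by exact_mod_cast k1
    have k2r : (n : ℝ) ≤ X + Z := by exact_mod_cast k2
    refine ⟨by linarith, by linarith, k3, fun i p hp hd => ?_, k5⟩
    by_contra hcon
    push Not at hcon
    have g1 : p ≤ Y := by
      rw [hY]; exact Nat.le_floor hcon
    exact k4 i p hp g1 hd
  · apply (Set.finite_Icc (⌊x⌋) (⌊x + x ^ θ⌋)).subset
    rintro n ⟨k1, k2, -⟩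
    exact ⟨Int.floor_le_iff.2 (by linarith), Int.le_floor.2 k2⟩

end Pool.Agent.H72.CG
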