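import Mathlib
import Pool.Agent.H72.CG.MainU

/-!
The values of additive functions with values in a finite abelian group at `a t + 1`, for `t` in a short
interval, if `a t + 1` avoids boundedly many arbitrary residue classes modulo each small prime; uniformly
in `a` up to a power of `t`.
-/

set_option autoImplicit false

open Finset

namespace Pool.Agent.H72.CG

open Pool.Agent.H661R3.OP (Rough)

theorem real_versionU (k₁ κ g : ℕ) (hg : 1 ≤ g) (θ ε : ℝ)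
    (hθ : 1 - 1 / (g : ℝ) < θ) (hθ1 : θ ≤ 1) (hε : 0 < ε) :
    ∃ (q : ℕ) (δ : ℝ), 0 < q ∧ 0 < δ ∧ ∃ x₀ : ℝ, 1 ≤ x₀ ∧ ∀ x : ℝ, x₀ ≤ x →
      ∀ a : ℕ, 0 < a → (a : ℝ) ≤ x ^ δ → ∀ B : ℕ → Finset ℤ,
      (∀ p : ℕ, p.Prime → (B p).card ≤ κ) →
      (∀ p : ℕ, p.Prime → ∃ n : ℤ, ¬ (p : ℤ) ∣ 1 + (a ^ 2 : ℕ) * n ∧
        ∀ e ∈ B p, ¬ (p : ℤ) ∣ 1 + (a ^ 2 : ℕ) * n - e) →
      ∀ (G : Type) [AddCommGroup G] [Fintype G],
      (Fintype.card G ≤ g ∨ (∀ x : G, x + x = 0) ∧ Fintype.card G ≤ 2 ^ (g - 1)) →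
      ∀ F : ℤ → G, AddG F →
      (∀ H : AddSubgroup G, H ≠ ⊤ → ∃ p : ℕ, p.Prime ∧ x ^ δ < p ∧ (p : ℝ) ≤ x ^ (k₁ * δ) ∧
        ((q * a ^ 2 : ℕ) : ℤ) ∣ (p : ℤ) - 1 ∧ F p ∉ H) → ∀ c : G,
      x ^ (1 - g * (1 - θ) - ε) ≤ ({t : ℤ | x < t ∧ (t : ℝ) ≤ x + x ^ θ ∧
        (∀ p : ℕ, p.Prime → (p : ℤ) ∣ a * t + 1 → x ^ δ < p) ∧
        (∀ p : ℕ, p.Prime → (p : ℝ) ≤ x ^ δ → ∀ e ∈ B p, ¬ (p : ℤ) ∣ a * t + 1 - e) ∧
        (a : ℤ) ∣ t ∧ F (a * t + 1) = c}.ncard : ℝ) := by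
  obtain ⟨r, rfl⟩ : ∃ r : ℕ, g = r + 1 := ⟨g - 1, by omega⟩
  obtain ⟨q, D, e, hq, hD, hmain⟩ := mainU (2 * k₁) κ r
  have hg0 : (0 : ℝ) < ((r + 1 : ℕ) : ℝ) := by positivity
  set ρ : ℝ := 1 - ((r + 1 : ℕ) : ℝ) * (1 - θ) with hρ
  have hρ0 : 0 < ρ := by
    have h1 : ((r + 1 : ℕ) : ℝ) * (1 - θ) < 1 := by
      have h2 : 1 - θ < 1 / ((r + 1 : ℕ) : ℝ) := by linarith
      rwa [lt_div_iff₀ hg0, mul_comm] at h2
    rw [hρ]; linarith
  have hθ0 : 0 < θ := by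
    have h1 : 1 / ((r + 1 : ℕ) : ℝ) ≤ 1 := by
      rw [div_le_one hg0]
      have : (1 : ℝ) ≤ ((r + 1 : ℕ) : ℝ) := by exact_mod_cast hg
      exact this
    linarith
  set s : ℝ := min (min ε ρ) 1 with hs
  have hs0 : 0 < s := lt_min (lt_min hε hρ0) one_pos
  have hsε : s ≤ ε := (min_le_left _ _).trans (min_le_left _ _)
  have hsρ : s ≤ ρ := (min_le_left _ _).trans (min_le_right _ _)
  set f : ℕ := e + (2 * r + 1) with hf
  set δ : ℝ := s / (4 * (f + 1)) with hδ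
  have he1 : (0 : ℝ) < 4 * (f + 1) := by positivity
  have hδ0 : 0 < δ := by positivity
  have hδf : δ * f ≤ s / 4 := by
    have h1 : δ * (4 * (f + 1)) = s := by rw [hδ]; field_simp
    nlinarith
  refine ⟨q, δ, hq, hδ0, ?_⟩
  have l1 : ∀ᶠ x : ℝ in Filter.atTop, (8 : ℝ) ≤ x ^ δ :=
    (tendsto_rpow_atTop hδ0).eventually_ge_atTop _
  have l2 : ∀ᶠ x : ℝ in Filter.atTop, (4 : ℝ) ≤ x ^ θ :=
    (tendsto_rpow_atTop hθ0).eventually_ge_atTop _
  have l3 : ∀ᶠ x : ℝ in Filter.atTop, (D : ℝ) * 2 ^ (2 * r + 1) ≤ x ^ (3 * s / 4) :=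
    (tendsto_rpow_atTop (by positivity)).eventually_ge_atTop _
  obtain ⟨x₀, hx₀⟩ := Filter.eventually_atTop.mp (l1.and (l2.and l3))
  refine ⟨max x₀ 2, one_le_two.trans (le_max_right _ _), ?_⟩
  intro x hx a ha hax B hB hadm G _ _ hGr F hF hprime c
  have hx2 : 2 ≤ x := (le_max_right _ _).trans hx
  have hx1 : 1 ≤ x := by linarith
  obtain ⟨h1, h2, h3⟩ := hx₀ x ((le_max_left _ _).trans hx)
  have hx0 : (0 : ℝ) < x := by linarith
  have har : (1 : ℝ) ≤ a := by exact_mod_cast ha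
  have ha0 : (0 : ℝ) < a := by linarith
  have haz : (0 : ℤ) < a := by exact_mod_cast ha
  -- the parameters
  set X : ℤ := ⌈(a : ℝ) * x⌉ + 1 with hX
  set Z : ℤ := ⌊(a : ℝ) * x ^ θ⌋ - 1 with hZ
  set Y : ℕ := ⌊x ^ δ⌋₊ with hY
  have hxδ0 : 0 < x ^ δ := by positivity
  have hxθ0 : 0 < x ^ θ := by positivity
  have hXx : a * x + 1 ≤ X := by
    rw [hX]; push_cast
    have := Int.le_ceil ((a : ℝ) * x)
    linarith
  have hXx' : (X : ℝ) < a * x + 2 := by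
    rw [hX]; push_cast
    have := Int.ceil_lt_add_one ((a : ℝ) * x)
    linarith
  have hZx : (Z : ℝ) ≤ a * x ^ θ - 1 := by
    rw [hZ]; push_cast
    have := Int.floor_le ((a : ℝ) * x ^ θ)
    linarith
  have hZx' : a * x ^ θ - 2 < (Z : ℝ) := by
    rw [hZ]; push_cast
    have := Int.lt_floor_add_one ((a : ℝ) * x ^ θ)
    linarith
  have haθ : x ^ θ ≤ a * x ^ θ := le_mul_of_one_le_left hxθ0.le har
  have hax1 : x ≤ a * x := le_mul_of_one_le_left hx0.le har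
  have hZ2 : a * x ^ θ / 2 ≤ Z := by linarith
  have hZ0 : 0 < Z := by
    have : (0 : ℝ) < Z := by linarith
    exact_mod_cast this
  have hθx : x ^ θ ≤ x := by
    calc x ^ θ ≤ x ^ (1 : ℝ) := Real.rpow_le_rpow_of_exponent_le hx1 hθ1
      _ = x := Real.rpow_one x
  have haθx : a * x ^ θ ≤ a * x := mul_le_mul_of_nonneg_left hθx ha0.le
  have hZX : Z ≤ X := by
    have : (Z : ℝ) ≤ X := by linarith
    exact_mod_cast this
  have hX0 : 0 < X := by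
    have : (0 : ℝ) < X := by linarith
    exact_mod_cast this
  have hYx : (Y : ℝ) ≤ x ^ δ := Nat.floor_le (by positivity)
  have hYx' : x ^ δ < (Y : ℝ) + 1 := Nat.lt_floor_add_one _
  have hY2 : 2 ≤ Y := by
    rw [hY]; apply Nat.le_floor; push_cast; linarith
  have hYh : x ^ δ / 2 ≤ (Y : ℝ) := by linarith
  have hX2 : (X : ℝ) ≤ 2 * (a * x) := by linarith
  -- upper bound for `D m ^ (r + 1) Y ^ e X ^ r`
  have hup : (D : ℝ) * ((a ^ 2 : ℕ) : ℝ) ^ (r + 1) * (Y : ℝ) ^ e * (X : ℝ) ^ r ≤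
      a ^ (r + 1) * (D * 2 ^ r * (x ^ (δ * f) * x ^ r)) := by
    have g1 : (Y : ℝ) ^ e ≤ (x ^ δ) ^ e := pow_le_pow_left₀ (by positivity) hYx e
    have g0 : (a : ℝ) ^ (2 * r + 1) ≤ (x ^ δ) ^ (2 * r + 1) := pow_le_pow_left₀ ha0.le hax _
    have hXr0 : (0 : ℝ) ≤ X := by linarith
    have g2 : (X : ℝ) ^ r ≤ 2 ^ r * (a ^ r * x ^ r) := by
      rw [← mul_pow, ← mul_pow]
      exact pow_le_pow_left₀ hXr0 hX2 r
    have g3 : (x ^ δ) ^ f = x ^ (δ * f) := by rw [← Real.rpow_natCast, ← Real.rpow_mul hx0.le]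
    calc (D : ℝ) * ((a ^ 2 : ℕ) : ℝ) ^ (r + 1) * (Y : ℝ) ^ e * (X : ℝ) ^ r
        ≤ D * ((a ^ 2 : ℕ) : ℝ) ^ (r + 1) * (x ^ δ) ^ e * (2 ^ r * (a ^ r * x ^ r)) := by
          apply mul_le_mul _ g2 (by positivity) (by positivity)
          exact mul_le_mul_of_nonneg_left g1 (by positivity)
      _ = (a ^ (r + 1) * D * 2 ^ r * (x ^ δ) ^ e * x ^ r) * a ^ (2 * r + 1) := by
          push_cast
          ring
      _ ≤ (a ^ (r + 1) * D * 2 ^ r * (x ^ δ) ^ e * x ^ r) * (x ^ δ) ^ (2 * r + 1) :=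
          mul_le_mul_of_nonneg_left g0 (by positivity)
      _ = _ := by
          rw [← g3, hf, pow_add]
          ring
  have hlow : a ^ (r + 1) * (x ^ (θ * (r + 1)) / 2 ^ (r + 1)) ≤ (Z : ℝ) ^ (r + 1) := by
    calc (a : ℝ) ^ (r + 1) * (x ^ (θ * (r + 1)) / 2 ^ (r + 1)) = (a * x ^ θ / 2) ^ (r + 1) := by
          rw [div_pow, mul_pow, ← Real.rpow_natCast (x ^ θ), ← Real.rpow_mul hx0.le]
          push_cast
          ring
      _ ≤ (Z : ℝ) ^ (r + 1) := pow_le_pow_left₀ (by positivity) hZ2 _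
  have hexp : x ^ (θ * (r + 1)) = x ^ ρ * x ^ r := by
    rw [← Real.rpow_natCast x r, ← Real.rpow_add hx0]
    congr 1
    rw [hρ]; push_cast; ring
  have hD0 : (0 : ℝ) < D := by exact_mod_cast hD
  have harr : (0 : ℝ) < (a : ℝ) ^ (r + 1) := by positivity
  have hsize : (D : ℝ) * ((a ^ 2 : ℕ) : ℝ) ^ (r + 1) * (Y : ℝ) ^ e * (X : ℝ) ^ r ≤
      (Z : ℝ) ^ (r + 1) := by
    refine hup.trans (le_trans ?_ hlow)
    refine mul_le_mul_of_nonneg_left ?_ harr.le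
    rw [le_div_iff₀ (by positivity), hexp]
    have g1 : (D : ℝ) * 2 ^ (2 * r + 1) * x ^ (δ * f) ≤ x ^ ρ := by
      calc (D : ℝ) * 2 ^ (2 * r + 1) * x ^ (δ * f) ≤ x ^ (3 * s / 4) * x ^ (s / 4) := by
            apply mul_le_mul h3 (Real.rpow_le_rpow_of_exponent_le hx1 hδf) (by positivity)
              (by positivity)
        _ = x ^ s := by rw [← Real.rpow_add hx0]; congr 1; ring
        _ ≤ x ^ ρ := Real.rpow_le_rpow_of_exponent_le hx1 hsρ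
    calc (D : ℝ) * 2 ^ r * (x ^ (δ * f) * x ^ r) * 2 ^ (r + 1)
        = (D * 2 ^ (2 * r + 1) * x ^ (δ * f)) * x ^ r := by
          rw [show 2 * r + 1 = r + (r + 1) by ring, pow_add (2 : ℝ) r (r + 1)]
          ring
      _ ≤ x ^ ρ * x ^ r := mul_le_mul_of_nonneg_right g1 (by positivity)
  have hres := hmain (a ^ 2) (by positivity) 1 B hB hadm G (by simpa using hGr) F hF Y X Z hY2 hX0
    hZ0 hZX hsize (by
    intro H hH
    obtain ⟨p, k1, k2, k3, k4, k5⟩ := hprime H hH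
    refine ⟨p, k1, ?_, ?_, k4, k5⟩
    · have : (Y : ℝ) < p := lt_of_le_of_lt hYx k2
      exact_mod_cast this
    · have g0 : x ^ δ ≤ (Y : ℝ) ^ 2 := by
        have g3 : (x ^ δ / 2) ^ 2 ≤ (Y : ℝ) ^ 2 := pow_le_pow_left₀ (by positivity) hYh 2
        refine le_trans ?_ g3
        have g4 : (x ^ δ / 2) ^ 2 = x ^ δ * (x ^ δ / 4) := by ring
        rw [g4]
        have g5 : (1 : ℝ) ≤ x ^ δ / 4 := by linarith
        exact le_mul_of_one_le_right (by positivity) g5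
      have g1 : x ^ (k₁ * δ) ≤ (Y : ℝ) ^ (2 * k₁) := by
        have g2 : x ^ (k₁ * δ) = (x ^ δ) ^ k₁ := by
          rw [← Real.rpow_natCast (x ^ δ), ← Real.rpow_mul hx0.le]
          congr 1
          ring
        rw [g2, pow_mul]
        exact pow_le_pow_left₀ (by positivity) g0 k₁
      have : (p : ℝ) ≤ ((Y ^ (2 * k₁) : ℕ) : ℝ) := by push_cast; linarith
      exact_mod_cast this) c
  set N : ℝ := ({n : ℤ | X < n ∧ n ≤ X + Z ∧ ((a ^ 2 : ℕ) : ℤ) ∣ n - 1 ∧ Rough Y n ∧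
    (∀ p : ℕ, p.Prime → p ≤ Y → ∀ e ∈ B p, ¬ (p : ℤ) ∣ n - e) ∧ F n = c}.ncard : ℝ) with hN
  have hN0 : 0 ≤ N := by positivity
  have hcount : x ^ (1 - ((r + 1 : ℕ) : ℝ) * (1 - θ) - ε) ≤ N := by
    have g1 : x ^ ρ * x ^ r / 2 ^ (r + 1) ≤ D * 2 ^ r * (x ^ (δ * f) * x ^ r) * N := by
      rw [← hexp]
      refine le_of_mul_le_mul_left ?_ harr
      calc (a : ℝ) ^ (r + 1) * (x ^ (θ * (r + 1)) / 2 ^ (r + 1)) ≤ (Z : ℝ) ^ (r + 1) := hlow
        _ ≤ _ := hres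
        _ ≤ a ^ (r + 1) * (D * 2 ^ r * (x ^ (δ * f) * x ^ r)) * N :=
          mul_le_mul_of_nonneg_right hup hN0
        _ = _ := by ring
    rw [div_le_iff₀ (by positivity)] at g1
    have hxr : (0 : ℝ) < x ^ r := by positivity
    have g2 : x ^ ρ ≤ (D * 2 ^ (2 * r + 1) * x ^ (δ * f)) * N := by
      apply le_of_mul_le_mul_right _ hxr
      calc x ^ ρ * x ^ r ≤ D * 2 ^ r * (x ^ (δ * f) * x ^ r) * N * 2 ^ (r + 1) := g1
        _ = (D * 2 ^ (2 * r + 1) * x ^ (δ * f)) * N * x ^ r := by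
          rw [show 2 * r + 1 = r + (r + 1) by ring, pow_add (2 : ℝ) r (r + 1)]
          ring
    have g3 : (D : ℝ) * 2 ^ (2 * r + 1) * x ^ (δ * f) ≤ x ^ ε := by
      calc (D : ℝ) * 2 ^ (2 * r + 1) * x ^ (δ * f) ≤ x ^ (3 * s / 4) * x ^ (s / 4) := by
            apply mul_le_mul h3 (Real.rpow_le_rpow_of_exponent_le hx1 hδf) (by positivity)
              (by positivity)
        _ = x ^ s := by rw [← Real.rpow_add hx0]; congr 1; ring
        _ ≤ x ^ ε := Real.rpow_le_rpow_of_exponent_le hx1 hsε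
    have g4 : x ^ ρ ≤ x ^ ε * N := g2.trans (mul_le_mul_of_nonneg_right g3 hN0)
    have hxε : 0 < x ^ ε := by positivity
    rw [show 1 - ((r + 1 : ℕ) : ℝ) * (1 - θ) - ε = ρ - ε by rw [hρ], Real.rpow_sub hx0,
      div_le_iff₀ hxε, mul_comm]
    exact g4
  refine hcount.trans ?_
  rw [hN]
  refine Nat.cast_le.2 (Set.ncard_le_ncard_of_injOn (fun n : ℤ => (n - 1) / a) ?_ ?_ ?_)
  · rintro n ⟨k1, k2, k3, k4, k5, k6⟩
    have k1r : (X : ℝ) < n := by exact_mod_cast k1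
    have k2r : (n : ℝ) ≤ X + Z := by exact_mod_cast k2
    obtain ⟨v, hv⟩ := k3
    have hn : n = a * (a * v) + 1 := by
      have : n = ((a ^ 2 : ℕ) : ℤ) * v + 1 := by linarith
      rw [this]; push_cast; ring
    have hdiv : (n - 1) / (a : ℤ) = a * v := by
      rw [hn, add_sub_cancel_right]
      exact Int.mul_ediv_cancel_left _ haz.ne'
    simp only [Set.mem_ofPred_eq]
    rw [hdiv]
    have hnr : (n : ℝ) = a * ((a * v : ℤ) : ℝ) + 1 := by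
      rw [hn]; push_cast; ring
    rw [← hn]
    refine ⟨?_, ?_, fun p hp hd => ?_, fun p hp hpx => ?_, dvd_mul_right _ _, k6⟩
    · have : (a : ℝ) * x < a * ((a * v : ℤ) : ℝ) := by linarith
      exact lt_of_mul_lt_mul_left this ha0.le
    · have : (a : ℝ) * ((a * v : ℤ) : ℝ) ≤ a * (x + x ^ θ) := by linarith
      exact le_of_mul_le_mul_left this ha0
    · by_contra hcon
      push Not at hcon
      have g1 : p ≤ Y := by
        rw [hY]; exact Nat.le_floor hcon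
      exact k4 p hp g1 hd
    · have g1 : p ≤ Y := by
        rw [hY]; exact Nat.le_floor hpx
      exact k5 p hp g1
  · rintro n ⟨-, -, ⟨v, hv⟩, -⟩ n' ⟨-, -, ⟨v', hv'⟩, -⟩ h
    simp only at h
    have e1 : n - 1 = a * (a * v) := by rw [hv]; push_cast; ring
    have e2 : n' - 1 = a * (a * v') := by rw [hv']; push_cast; ring
    rw [e1, e2, Int.mul_ediv_cancel_left _ haz.ne', Int.mul_ediv_cancel_left _ haz.ne'] at h
    have : n - 1 = n' - 1 := by rw [e1, e2, h]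
    linarith
  · apply (Set.finite_Icc (⌊x⌋) (⌊x + x ^ θ⌋)).subset
    rintro n ⟨k1, k2, -⟩
    exact ⟨Int.floor_le_iff.2 (by linarith), Int.le_floor.2 k2⟩

end Pool.Agent.H72.CG
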